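import Mathlib
import Pool.Agent.Helper27.MC.Base
import Pool.Agent.Helper51.MC.FLIP
import Pool.Agent.Helper51.MC.UNI
import Pool.Agent.Helper88.MC.ISO

/-!
MP_4042d8_co: frame for final colourings with larger components (paths with 3, 4, 5 vertices and
triangles): matched hard parts, units, and the union of units.
-/

set_option autoImplicit false
set_option linter.unusedSectionVars false
set_option linter.unusedSimpArgs false
set_option linter.unusedVariables false

namespace Pool.Agent.Helper64.MC

open Pool.Agent.Helper27.MC Pool.Agent.Helper51.MC Pool.Agent.Helper88.MC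

variable {V : Type} [Fintype V] [DecidableEq V] {G : SimpleGraph V} [DecidableRel G.Adj]

/-! ### elementary facts on `mu` -/

theorem mu_le_one {c : V → Bool} {v z : V} (h : ∀ y, Rm G c v y → y = z) : mu G c v ≤ 1 := by
  unfold mu
  have : Finset.univ.filter (fun w => G.Adj v w ∧ c w = c v) ⊆ {z} := by
    intro y hy
    simp only [Finset.mem_filter, Finset.mem_univ, true_and] at hy
    rw [Finset.mem_singleton]
    exact h y hy
  simpa using Finset.card_le_card this

theorem mu_eq_zero {c : V → Bool} {v : V} (h : ∀ y, ¬ Rm G c v y) : mu G c v = 0 := by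
  unfold mu
  rw [Finset.card_eq_zero, Finset.filter_eq_empty_iff]
  intro y _ hy
  exact h y hy

theorem rm_uniq {c : V → Bool} {v y z : V} (hm : mu G c v ≤ 1) (h1 : Rm G c v y) (h2 : Rm G c v z) :
    y = z := by
  unfold mu at hm
  rw [Finset.card_le_one] at hm
  exact hm y (by simpa [Rm] using h1) z (by simpa [Rm] using h2)

theorem Ok.mu_eq {c : V → Bool} {f : V → V} {P N : Finset V} (h : Ok c G f P N) (hP : Cl c G P)
    (hN : Cl c G N) {v : V} (hv : v ∈ P) : mu G c (f v) = mu G c v := by
  unfold mu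
  symm
  refine Finset.card_bij (fun w _ => f w) ?_ ?_ ?_
  · intro w hw
    simp only [Finset.mem_filter, Finset.mem_univ, true_and] at hw ⊢
    have hwP : w ∈ P := hP v hv w hw
    exact (h.2 v hv w hwP).1 hw
  · intro w hw w' hw' e
    simp only [Finset.mem_filter, Finset.mem_univ, true_and] at hw hw'
    exact h.1.injOn (hP v hv w hw) (hP v hv w' hw') e
  · intro y hy
    simp only [Finset.mem_filter, Finset.mem_univ, true_and] at hy
    have hfv : f v ∈ N := h.1.mapsTo hv
    have hyN : y ∈ N := hN _ hfv y hy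
    obtain ⟨x, hx, rfl⟩ := h.1.surjOn hyN
    refine ⟨x, ?_, rfl⟩
    simp only [Finset.mem_filter, Finset.mem_univ, true_and]
    exact (h.2 v hv x hx).2 hy

/-! ### matchings -/

theorem match1 {c : V → Bool} : ∀ (n : ℕ) (U W : Finset V), U.card = n → W.card = n → Cl c G U →
    Cl c G W → (∀ v ∈ U, mu G c v ≤ 1) → (∀ v ∈ W, mu G c v ≤ 1) →
    (U.filter (fun v => mu G c v = 1)).card = (W.filter (fun v => mu G c v = 1)).card →
    ∃ f, Ok c G f U W := by
  intro n
  induction n using Nat.strong_induction_on with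
  | _ n ih =>
  intro U W hU hW cU cW mU mW e1
  have pr : ∀ (U : Finset V), Cl c G U → (∀ v ∈ U, mu G c v ≤ 1) → ∀ v ∈ U, mu G c v = 1 →
      ∃ a, a ∈ U ∧ a ≠ v ∧ mu G c a = 1 ∧ (∀ y, Rm G c v y ↔ y = a) ∧ ∀ y, Rm G c a y ↔ y = v := by
    intro U cU hU v hv hv1
    obtain ⟨a, ha⟩ := mu_one hv1
    have ra := (ha a).2 rfl
    have haU := cU v hv a ra
    have m1 : mu G c a = 1 := by
      have h4 := hU a haU
      have h5 : mu G c a ≠ 0 := fun h => mu_zero h v ra.symm
      omega
    refine ⟨a, haU, ra.ne.symm, m1, ha, fun y => ?_⟩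
    obtain ⟨b, hb⟩ := mu_one m1
    have : v = b := (hb v).1 ra.symm
    rw [hb y, this]
  by_cases hc1 : ∃ v ∈ U, mu G c v = 1
  · obtain ⟨v, hv, hv1⟩ := hc1
    obtain ⟨v', hv', hv1'⟩ : ∃ v' ∈ W, mu G c v' = 1 := by
      have : 0 < (W.filter (fun v => mu G c v = 1)).card := by
        rw [← e1]
        exact Finset.card_pos.2 ⟨v, by simp [hv, hv1]⟩
      obtain ⟨v', hv'⟩ := Finset.card_pos.1 this
      rw [Finset.mem_filter] at hv'
      exact ⟨v', hv'.1, hv'.2⟩
    obtain ⟨a, haU, nav, ma, hR, sa⟩ := pr U cU mU v hv hv1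
    obtain ⟨a', haU', nav', ma', hR', sa'⟩ := pr W cW mW v' hv' hv1'
    have hK : ({v, a} : Finset V) ⊆ U := by
      intro x hx
      simp only [Finset.mem_insert, Finset.mem_singleton] at hx
      rcases hx with rfl | rfl
      · exact hv
      · exact haU
    have hL : ({v', a'} : Finset V) ⊆ W := by
      intro x hx
      simp only [Finset.mem_insert, Finset.mem_singleton] at hx
      rcases hx with rfl | rfl
      · exact hv'
      · exact haU'
    have cK : Cl c G ({v, a} : Finset V) := by
      intro x hx y hy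
      simp only [Finset.mem_insert, Finset.mem_singleton] at hx ⊢
      rcases hx with rfl | rfl
      · simp [(hR y).1 hy]
      · simp [(sa y).1 hy]
    have cL : Cl c G ({v', a'} : Finset V) := by
      intro x hx y hy
      simp only [Finset.mem_insert, Finset.mem_singleton] at hx ⊢
      rcases hx with rfl | rfl
      · simp [(hR' y).1 hy]
      · simp [(sa' y).1 hy]
    have a1 := Finset.card_sdiff_add_card_eq_card hK
    have a2 := Finset.card_sdiff_add_card_eq_card hL
    have c1 : ({v, a} : Finset V).card = 2 := Finset.card_pair nav.symm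
    have c2 : ({v', a'} : Finset V).card = 2 := Finset.card_pair nav'.symm
    have b1 := cnt hK (fun v => mu G c v = 1)
    have b2 := cnt hL (fun v => mu G c v = 1)
    have d1 : (({v, a} : Finset V).filter (fun v => mu G c v = 1)).card = 2 := by
      rw [Finset.filter_true_of_mem, c1]
      intro x hx
      simp only [Finset.mem_insert, Finset.mem_singleton] at hx
      rcases hx with rfl | rfl
      · exact hv1
      · exact ma
    have d2 : (({v', a'} : Finset V).filter (fun v => mu G c v = 1)).card = 2 := by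
      rw [Finset.filter_true_of_mem, c2]
      intro x hx
      simp only [Finset.mem_insert, Finset.mem_singleton] at hx
      rcases hx with rfl | rfl
      · exact hv1'
      · exact ma'
    obtain ⟨f, hf⟩ := ih (U \ {v, a}).card (by omega) (U \ {v, a}) (W \ {v', a'}) rfl (by omega)
      (cU.sdiff cK) (cW.sdiff cL) (fun x hx => mU x (Finset.mem_sdiff.1 hx).1)
      (fun x hx => mW x (Finset.mem_sdiff.1 hx).1) (by omega)
    refine ext hK hL cK cL hf (g := fun x => if x = v then v' else a') ⟨⟨?_, ?_, ?_⟩, ?_⟩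
    · intro x hx
      beta_reduce
      split_ifs <;> simp
    · intro x hx y hy hxy
      have hx' : x = v ∨ x = a := by simpa using hx
      have hy' : y = v ∨ y = a := by simpa using hy
      beta_reduce at hxy
      grind
    · intro y hy
      have hy' : y = v' ∨ y = a' := by simpa using hy
      rcases hy' with rfl | rfl
      · exact ⟨v, by simp, by simp⟩
      · exact ⟨a, by simp, by simp [nav]⟩
    · intro x hx y hy
      have hx' : x = v ∨ x = a := by simpa using hx
      have hy' : y = v ∨ y = a := by simpa using hy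
      beta_reduce
      rcases hx' with rfl | rfl
      · rw [hR y, if_pos rfl, hR']
        grind
      · rw [sa y, if_neg nav, sa']
        grind
  · push Not at hc1
    have hc1' : ∀ v ∈ W, mu G c v ≠ 1 := by
      intro v hv h
      have : 0 < (U.filter (fun v => mu G c v = 1)).card := by
        rw [e1]
        exact Finset.card_pos.2 ⟨v, by simp [hv, h]⟩
      obtain ⟨v', hv'⟩ := Finset.card_pos.1 this
      rw [Finset.mem_filter] at hv'
      exact hc1 v' hv'.1 hv'.2
    have z1 : ∀ v ∈ U, ∀ y, ¬ Rm G c v y := by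
      intro v hv
      have h4 := mU v hv
      have h5 := hc1 v hv
      exact mu_zero (by omega)
    have z2 : ∀ v ∈ W, ∀ y, ¬ Rm G c v y := by
      intro v hv
      have h4 := mW v hv
      have h5 := hc1' v hv
      exact mu_zero (by omega)
    obtain ⟨e⟩ : Nonempty (U ≃ W) := ⟨Finset.equivOfCardEq (hU.trans hW.symm)⟩
    refine ⟨fun x => if h : x ∈ U then (e ⟨x, h⟩ : V) else x, ⟨?_, ?_, ?_⟩, ?_⟩
    · intro x hx
      have hx' : x ∈ U := hx
      beta_reduce
      rw [dif_pos hx']
      exact (e ⟨x, hx'⟩).2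
    · intro x hx y hy hxy
      have hx' : x ∈ U := hx
      have hy' : y ∈ U := hy
      beta_reduce at hxy
      rw [dif_pos hx', dif_pos hy'] at hxy
      have := e.injective (Subtype.ext hxy)
      simpa using this
    · intro y hy
      have hy' : y ∈ W := hy
      refine ⟨(e.symm ⟨y, hy'⟩ : V), (e.symm ⟨y, hy'⟩).2, ?_⟩
      beta_reduce
      rw [dif_pos (e.symm ⟨y, hy'⟩).2]
      simp
    · intro x hx y hy
      beta_reduce
      rw [dif_pos hx, dif_pos hy]
      exact ⟨fun h => absurd h (z1 x hx y), fun h => absurd h (z2 _ (e ⟨x, hx⟩).2 _)⟩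

/-! ### matched hard parts -/

variable (G) in
/-- `P` (colour true) and `N` (colour false) are unions of mono components, matched by an
isomorphism. -/
structure Mat (c : V → Bool) (P N : Finset V) : Prop where
  pos : ∀ v ∈ P, c v = true
  neg : ∀ v ∈ N, c v = false
  clP : Cl c G P
  clN : Cl c G N
  ok : ∃ f, Ok c G f P N

variable (G) in
/-- final colourings: balanced, the hard part matched, all other vertices have `mu ≤ 1` -/
structure FinH (c : V → Bool) : Prop where
  bal : imb c = 0
  hard : ∃ P N : Finset V, Mat G c P N ∧ ∀ v, v ∉ P → v ∉ N → mu G c v ≤ 1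

theorem ISO2 (hreg : G.IsRegularOfDegree 3) (c : V → Bool) (hF : FinH G c) :
    ∃ B : Finset V, 2 * B.card = Fintype.card V ∧
      Nonempty (SimpleGraph.Iso (G.induce (↑B : Set V)) (G.induce ((↑B : Set V)ᶜ))) := by
  obtain ⟨bal, P, N, ⟨hP, hN, cP, cN, g, hg⟩, hout⟩ := hF
  have hcompl : Finset.univ.filter (fun v => c v = false) = (Finset.univ.filter (fun v => c v = true))ᶜ := by
    ext v
    simp
  have hcard : (Finset.univ.filter (fun v => c v = true)).card + (Finset.univ.filter (fun v => c v = false)).card =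
      Fintype.card V := by
    rw [hcompl]
    exact Finset.card_add_card_compl _
  have heq : (Finset.univ.filter (fun v => c v = true)).card = (Finset.univ.filter (fun v => c v = false)).card := by
    have h3 : imb c = ((Finset.univ.filter (fun v => c v = false)).card : ℤ) - ((Finset.univ.filter (fun v => c v = true)).card : ℤ) := by
      unfold imb
      rw [Finset.card_filter, Finset.card_filter]
      push_cast
      rw [← Finset.sum_sub_distrib]
      refine Finset.sum_congr rfl fun v _ => ?_
      cases c v <;> simp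
    rw [bal] at h3
    omega
  set U := Finset.univ.filter (fun v => c v = true) with hUdef
  set W := Finset.univ.filter (fun v => c v = false) with hWdef
  have hPU : P ⊆ U := fun v hv => by simp [hUdef, hP v hv]
  have hNW : N ⊆ W := fun v hv => by simp [hWdef, hN v hv]
  have cU : Cl c G U := by
    intro x hx y hy
    simp only [hUdef, Finset.mem_filter, Finset.mem_univ, true_and] at hx ⊢
    rw [hy.2, hx]
  have cW : Cl c G W := by
    intro x hx y hy
    simp only [hWdef, Finset.mem_filter, Finset.mem_univ, true_and] at hx ⊢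
    rw [hy.2, hx]
  have hPN : P.card = N.card := by
    have := Finset.card_nbij g hg.1.mapsTo hg.1.injOn hg.1.surjOn
    exact this
  have sPN : ∑ v ∈ P, (3 - (mu G c v : ℤ)) = ∑ v ∈ N, (3 - (mu G c v : ℤ)) := by
    refine Finset.sum_nbij g hg.1.mapsTo hg.1.injOn hg.1.surjOn ?_
    intro v hv
    rw [Ok.mu_eq hg cP cN hv]
  have mU : ∀ v ∈ U \ P, mu G c v ≤ 1 := by
    intro v hv
    rw [Finset.mem_sdiff] at hv
    refine hout v hv.2 (fun h => ?_)
    have h1 := hN v h
    simp [hUdef, h1] at hv
  have mW : ∀ v ∈ W \ N, mu G c v ≤ 1 := by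
    intro v hv
    rw [Finset.mem_sdiff] at hv
    refine hout v (fun h => ?_) hv.2
    have h1 := hP v h
    simp [hWdef, h1] at hv
  have sm : ∀ Y : Finset V, (∀ v ∈ Y, mu G c v ≤ 1) → ∑ v ∈ Y, (3 - (mu G c v : ℤ)) =
      3 * (Y.card : ℤ) - ((Y.filter (fun v => mu G c v = 1)).card : ℤ) := by
    intro Y hY
    rw [Finset.card_filter (fun v => mu G c v = 1), Finset.card_eq_sum_ones]
    push_cast
    rw [Finset.mul_sum, ← Finset.sum_sub_distrib]
    refine Finset.sum_congr rfl fun v hv => ?_
    have h3 := hY v hv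
    interval_cases h4 : mu G c v <;> simp
  have hcut := cut hreg c
  rw [← hUdef, ← hWdef, ← Finset.sum_sdiff hPU, ← Finset.sum_sdiff hNW, sPN, sm _ mU, sm _ mW] at hcut
  have a1 := Finset.card_sdiff_add_card_eq_card hPU
  have a2 := Finset.card_sdiff_add_card_eq_card hNW
  obtain ⟨f, hf⟩ := match1 _ (U \ P) (W \ N) rfl (by omega) (cU.sdiff cP) (cW.sdiff cN) mU mW (by omega)
  obtain ⟨f, hf, ha⟩ := ext hPU hNW cP cN hf hg
  refine ⟨U, by omega, ?_⟩
  rw [hcompl, Finset.coe_compl] at hf
  refine ⟨⟨hf.equiv f, ?_⟩⟩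
  intro x y
  have hx : (x : V) ∈ U := x.2
  have hy : (y : V) ∈ U := y.2
  have h3 := ha x hx y hy
  have h4 : c (f x) = false := by
    have := hf.mapsTo x.2
    simpa [hUdef] using this
  have h5 : c (f y) = false := by
    have := hf.mapsTo y.2
    simpa [hUdef] using this
  simp only [hUdef, Finset.mem_filter, Finset.mem_univ, true_and] at hx hy
  have h6 : Rm G c x y ↔ G.Adj x y := ⟨fun h => h.1, fun h => ⟨h, by rw [hx, hy]⟩⟩
  have h7 : Rm G c (f x) (f y) ↔ G.Adj (f x) (f y) := ⟨fun h => h.1, fun h => ⟨h, by rw [h4, h5]⟩⟩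
  rw [SimpleGraph.comap_adj, SimpleGraph.comap_adj]
  change G.Adj (f x) (f y) ↔ G.Adj x y
  rw [← h6, ← h7]
  exact h3.symm

/-! ### units -/

variable (G) in
/-- A unit: flip `X`; everything happens inside the territory `T`; the imbalance decreases by `2`;
the hard components which appear are matched. -/
structure Blk (c : V → Bool) (X T : Finset V) : Prop where
  sub : cn G X ⊆ T
  dX : dd c X = 1
  hard : ∃ P N : Finset V, P ⊆ T ∧ N ⊆ T ∧ Mat G (flp c X) P N ∧
    ∀ v, v ∉ P → v ∉ N → mu G (flp c X) v ≤ 1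

section union

variable {c : V → Bool} {j : ℕ} {X T : Fin j → Finset V}

theorem blk_mem (hO : ∀ i, cn G (X i) ⊆ T i)
    (hT : ∀ i k, i ≠ k → Disjoint (T i) (T k)) {i : Fin j} {v w : V} (hv : v ∈ T i)
    (hw : w = v ∨ G.Adj v w) : w ∈ Finset.univ.biUnion X ↔ w ∈ X i := by
  simp only [Finset.mem_biUnion, Finset.mem_univ, true_and]
  constructor
  · rintro ⟨k, hk⟩
    by_cases hik : i = k
    · subst hik; exact hk
    · exfalso
      have h1 : v ∈ cn G (X k) := by
        unfold cn
        simp only [Finset.mem_filter, Finset.mem_univ, true_and]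
        rcases hw with rfl | hw
        · exact Or.inl hk
        · exact Or.inr ⟨w, hk, hw⟩
      exact Finset.disjoint_left.1 (hT i k hik) hv (hO k h1)
  · intro h
    exact ⟨i, h⟩

theorem blk_flp (hO : ∀ i, cn G (X i) ⊆ T i)
    (hT : ∀ i k, i ≠ k → Disjoint (T i) (T k)) {i : Fin j} {v w : V} (hv : v ∈ T i)
    (hw : w = v ∨ G.Adj v w) : flp c (Finset.univ.biUnion X) w = flp c (X i) w :=
  flp_congr (blk_mem hO hT hv hw)

theorem blk_mu (hO : ∀ i, cn G (X i) ⊆ T i)
    (hT : ∀ i k, i ≠ k → Disjoint (T i) (T k)) {i : Fin j} {v : V} (hv : v ∈ T i) :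
    mu G (flp c (Finset.univ.biUnion X)) v = mu G (flp c (X i)) v :=
  mu_congr G (blk_flp hO hT hv (Or.inl rfl)) (fun _ hw => blk_flp hO hT hv (Or.inr hw))

theorem blk_out (hO : ∀ i, cn G (X i) ⊆ T i) {v w : V}
    (hv : ∀ i, v ∉ T i) (hw : w = v ∨ G.Adj v w) : w ∉ Finset.univ.biUnion X := by
  simp only [Finset.mem_biUnion, Finset.mem_univ, true_and]
  rintro ⟨k, hk⟩
  have h1 : v ∈ cn G (X k) := by
    unfold cn
    simp only [Finset.mem_filter, Finset.mem_univ, true_and]
    rcases hw with rfl | hw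
    · exact Or.inl hk
    · exact Or.inr ⟨w, hk, hw⟩
  exact hv k (hO k h1)

theorem blk_mu_out (hO : ∀ i, cn G (X i) ⊆ T i) {v : V}
    (hv : ∀ i, v ∉ T i) : mu G (flp c (Finset.univ.biUnion X)) v = mu G c v :=
  mu_congr G (flp_not (blk_out hO hv (Or.inl rfl)))
    (fun _ hw => flp_not (blk_out hO hv (Or.inr hw)))

theorem blk_rm (hO : ∀ i, cn G (X i) ⊆ T i)
    (hT : ∀ i k, i ≠ k → Disjoint (T i) (T k)) {i : Fin j} {v w : V} (hv : v ∈ T i) :
    Rm G (flp c (Finset.univ.biUnion X)) v w ↔ Rm G (flp c (X i)) v w := by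
  unfold Rm
  constructor
  · rintro ⟨h1, h2⟩
    rw [blk_flp hO hT hv (Or.inl rfl), blk_flp hO hT hv (Or.inr h1)] at h2
    exact ⟨h1, h2⟩
  · rintro ⟨h1, h2⟩
    rw [← blk_flp hO hT hv (Or.inl rfl), ← blk_flp hO hT hv (Or.inr h1)] at h2
    exact ⟨h1, h2⟩

/-- The union of `j` units with disjoint territories is a final colouring. -/
theorem UNI2 (hm : ∀ v, mu G c v ≤ 1) (himb : imb c = 2 * (j : ℤ))
    (hB : ∀ i, Blk G c (X i) (T i)) (hT : ∀ i k, i ≠ k → Disjoint (T i) (T k)) :
    FinH G (flp c (Finset.univ.biUnion X)) := by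
  have hO : ∀ i, cn G (X i) ⊆ T i := fun i => (hB i).sub
  have hXT : ∀ i, X i ⊆ T i := fun i v hv => hO i (by
    unfold cn
    simp only [Finset.mem_filter, Finset.mem_univ, true_and]
    exact Or.inl hv)
  choose P N hPT hNT hMat hout using fun i => (hB i).hard
  have hdis : ∀ i k, ∀ v, v ∈ T i → v ∈ T k → i = k := by
    intro i k v h1 h2
    by_contra hik
    exact Finset.disjoint_left.1 (hT i k hik) h1 h2
  refine ⟨?_, Finset.univ.biUnion P, Finset.univ.biUnion N, ⟨?_, ?_, ?_, ?_, ?_⟩, ?_⟩
  · rw [flip_imb, himb]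
    have : dd c (Finset.univ.biUnion X) = (j : ℤ) := by
      unfold dd
      rw [Finset.sum_biUnion]
      · have h1 : ∀ i, (∑ x ∈ X i, (if c x = true then (-1 : ℤ) else 1)) = 1 := fun i => (hB i).dX
        simp [h1]
      · intro i _ k _ hik
        exact Finset.disjoint_of_subset_left (hXT i) (Finset.disjoint_of_subset_right (hXT k) (hT i k hik))
    rw [this]
    ring
  · intro v hv
    simp only [Finset.mem_biUnion, Finset.mem_univ, true_and] at hv
    obtain ⟨i, hi⟩ := hv
    rw [blk_flp hO hT (hPT i hi) (Or.inl rfl)]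
    exact (hMat i).pos v hi
  · intro v hv
    simp only [Finset.mem_biUnion, Finset.mem_univ, true_and] at hv
    obtain ⟨i, hi⟩ := hv
    rw [blk_flp hO hT (hNT i hi) (Or.inl rfl)]
    exact (hMat i).neg v hi
  · intro v hv y hy
    simp only [Finset.mem_biUnion, Finset.mem_univ, true_and] at hv ⊢
    obtain ⟨i, hi⟩ := hv
    exact ⟨i, (hMat i).clP v hi y ((blk_rm hO hT (hPT i hi)).1 hy)⟩
  · intro v hv y hy
    simp only [Finset.mem_biUnion, Finset.mem_univ, true_and] at hv ⊢
    obtain ⟨i, hi⟩ := hv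
    exact ⟨i, (hMat i).clN v hi y ((blk_rm hO hT (hNT i hi)).1 hy)⟩
  · choose f hf using fun i => (hMat i).ok
    have hex : ∀ v : V, ∃ w : V, ∀ i, v ∈ P i → w = f i v := by
      intro v
      by_cases h : ∃ i, v ∈ P i
      · obtain ⟨i, hi⟩ := h
        refine ⟨f i v, fun k hk => ?_⟩
        rw [hdis i k v (hPT i hi) (hPT k hk)]
      · push Not at h
        exact ⟨v, fun k hk => absurd hk (h k)⟩
    choose F hF using hex
    refine ⟨F, ⟨?_, ?_, ?_⟩, ?_⟩
    · intro v hv
      simp only [Finset.coe_biUnion, Finset.mem_coe, Finset.mem_univ, Set.iUnion_true,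
        Set.mem_iUnion] at hv ⊢
      obtain ⟨i, hi⟩ := hv
      exact ⟨i, by rw [hF v i hi]; exact (hf i).1.mapsTo hi⟩
    · intro v hv w hw e
      simp only [Finset.coe_biUnion, Finset.mem_coe, Finset.mem_univ, Set.iUnion_true,
        Set.mem_iUnion] at hv hw
      obtain ⟨i, hi⟩ := hv
      obtain ⟨k, hk⟩ := hw
      rw [hF v i hi, hF w k hk] at e
      have h1 : f i v ∈ N i := (hf i).1.mapsTo hi
      have h2 : f k w ∈ N k := (hf k).1.mapsTo hk
      have hik : i = k := hdis i k (f i v) (hNT i h1) (by rw [e]; exact hNT k h2)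
      subst hik
      exact (hf i).1.injOn hi hk e
    · intro y hy
      simp only [Finset.coe_biUnion, Finset.mem_coe, Finset.mem_univ, Set.iUnion_true,
        Set.mem_iUnion] at hy
      obtain ⟨i, hi⟩ := hy
      obtain ⟨x, hx, rfl⟩ := (hf i).1.surjOn hi
      refine ⟨x, ?_, hF x i hx⟩
      simp only [Finset.coe_biUnion, Finset.mem_coe, Finset.mem_univ, Set.iUnion_true,
        Set.mem_iUnion]
      exact ⟨i, hx⟩
    · intro x hx y hy
      simp only [Finset.mem_biUnion, Finset.mem_univ, true_and] at hx hy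
      obtain ⟨i, hi⟩ := hx
      obtain ⟨k, hk⟩ := hy
      have h1 : f i x ∈ N i := (hf i).1.mapsTo hi
      have h2 : f k y ∈ N k := (hf k).1.mapsTo hk
      rw [hF x i hi, hF y k hk, blk_rm hO hT (hPT i hi), blk_rm hO hT (hNT i h1)]
      by_cases hik : i = k
      · subst hik
        exact (hf i).2 x hi y hk
      · constructor
        · intro h
          exact absurd (hdis i k y (hPT i ((hMat i).clP x hi y h)) (hPT k hk)) hik
        · intro h
          exact absurd (hdis i k (f k y) (hNT i ((hMat i).clN _ h1 _ h)) (hNT k h2)) hik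
  · intro v h1 h2
    simp only [Finset.mem_biUnion, Finset.mem_univ, true_and, not_exists] at h1 h2
    by_cases hv : ∃ i, v ∈ T i
    · obtain ⟨i, hi⟩ := hv
      rw [blk_mu hO hT hi]
      exact hout i v (h1 i) (h2 i)
    · push Not at hv
      rw [blk_mu_out hO hv]
      exact hm v

end union

end Pool.Agent.Helper64.MC
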