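import Mathlib
import Pool.Agent.Helper64.MC.Unit

/-!
MP_4042d8_co: components of a prescribed shape, pairs of operations, territories.
-/

set_option autoImplicit false
set_option linter.unusedSectionVars false
set_option linter.unusedSimpArgs false
set_option linter.unusedVariables false

namespace Pool.Agent.Helper64.MC

open Pool.Agent.Helper27.MC Pool.Agent.Helper51.MC Pool.Agent.Helper88.MC

/-- the path with `k` vertices -/
def pth (k : ℕ) : SimpleGraph (Fin k) where
  Adj i i' := i.val + 1 = i'.val ∨ i'.val + 1 = i.val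
  symm := ⟨fun _ _ h => h.symm⟩
  loopless := ⟨fun i h => by rcases h with h | h <;> omega⟩

/-- the complete graph -/
def cmp (k : ℕ) : SimpleGraph (Fin k) := ⊤

variable {V : Type} [Fintype V] [DecidableEq V] {G : SimpleGraph V} [DecidableRel G.Adj]

variable (G) in
/-- `f` lists the vertices of a whole mono component of colour `b`, isomorphic to `H`. -/
structure Comp (c : V → Bool) (b : Bool) {k : ℕ} (H : SimpleGraph (Fin k)) (f : Fin k → V) : Prop where
  inj : Function.Injective f
  col : ∀ i, c (f i) = b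
  rm : ∀ i w, Rm G c (f i) w ↔ ∃ i', H.Adj i i' ∧ w = f i'

theorem Comp.cl {c : V → Bool} {b : Bool} {k : ℕ} {H : SimpleGraph (Fin k)} {f : Fin k → V}
    (h : Comp G c b H f) : Cl c G (Finset.univ.image f) := by
  intro x hx y hy
  simp only [Finset.mem_image, Finset.mem_univ, true_and] at hx ⊢
  obtain ⟨i, rfl⟩ := hx
  obtain ⟨i', _, rfl⟩ := (h.rm i y).1 hy
  exact ⟨i', rfl⟩

theorem Comp.rm2 {c : V → Bool} {b : Bool} {k : ℕ} {H : SimpleGraph (Fin k)} {f : Fin k → V}
    (h : Comp G c b H f) (i i' : Fin k) : Rm G c (f i) (f i') ↔ H.Adj i i' := by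
  rw [h.rm]
  constructor
  · rintro ⟨i2, h1, h2⟩
    rw [h.inj h2]
    exact h1
  · intro h1
    exact ⟨i', h1, rfl⟩

theorem Mat.of_comp {c : V → Bool} {k : ℕ} {H : SimpleGraph (Fin k)} {f g : Fin k → V}
    (hf : Comp G c true H f) (hg : Comp G c false H g) :
    Mat G c (Finset.univ.image f) (Finset.univ.image g) := by
  refine ⟨?_, ?_, hf.cl, hg.cl, ?_⟩
  · intro v hv
    simp only [Finset.mem_image, Finset.mem_univ, true_and] at hv
    obtain ⟨i, rfl⟩ := hv
    exact hf.col i
  · intro v hv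
    simp only [Finset.mem_image, Finset.mem_univ, true_and] at hv
    obtain ⟨i, rfl⟩ := hv
    exact hg.col i
  · have hex : ∀ v : V, ∃ w : V, ∀ i, v = f i → w = g i := by
      intro v
      by_cases h : ∃ i, v = f i
      · obtain ⟨i, rfl⟩ := h
        exact ⟨g i, fun i' h' => by rw [hf.inj h']⟩
      · push Not at h
        exact ⟨v, fun i hi => absurd hi (h i)⟩
    choose F hF using hex
    have hF' : ∀ i, F (f i) = g i := fun i => hF (f i) i rfl
    refine ⟨F, ⟨?_, ?_, ?_⟩, ?_⟩
    · intro v hv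
      simp only [Finset.coe_image, Finset.coe_univ, Set.image_univ, Set.mem_range] at hv ⊢
      obtain ⟨i, rfl⟩ := hv
      exact ⟨i, (hF' i).symm⟩
    · intro v hv w hw e
      simp only [Finset.coe_image, Finset.coe_univ, Set.image_univ, Set.mem_range] at hv hw
      obtain ⟨i, rfl⟩ := hv
      obtain ⟨i', rfl⟩ := hw
      rw [hF', hF'] at e
      rw [hg.inj e]
    · intro y hy
      simp only [Finset.coe_image, Finset.coe_univ, Set.image_univ, Set.mem_range] at hy
      obtain ⟨i, rfl⟩ := hy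
      exact ⟨f i, by simp, hF' i⟩
    · intro x hx y hy
      simp only [Finset.mem_image, Finset.mem_univ, true_and] at hx hy
      obtain ⟨i, rfl⟩ := hx
      obtain ⟨i', rfl⟩ := hy
      rw [hF', hF', hf.rm2, hg.rm2]

/-- union of matched parts -/
theorem Mat.union {c : V → Bool} {P N P' N' : Finset V} (h : Mat G c P N) (h' : Mat G c P' N')
    (hP : Disjoint P P') (hN : Disjoint N N') : Mat G c (P ∪ P') (N ∪ N') := by
  obtain ⟨p, n, cP, cN, f, hf⟩ := h
  obtain ⟨p', n', cP', cN', f', hf'⟩ := h'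
  refine ⟨?_, ?_, ?_, ?_, ?_⟩
  · intro v hv
    rcases Finset.mem_union.1 hv with h | h
    · exact p v h
    · exact p' v h
  · intro v hv
    rcases Finset.mem_union.1 hv with h | h
    · exact n v h
    · exact n' v h
  · intro v hv y hy
    rcases Finset.mem_union.1 hv with h | h
    · exact Finset.mem_union_left _ (cP v h y hy)
    · exact Finset.mem_union_right _ (cP' v h y hy)
  · intro v hv y hy
    rcases Finset.mem_union.1 hv with h | h
    · exact Finset.mem_union_left _ (cN v h y hy)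
    · exact Finset.mem_union_right _ (cN' v h y hy)
  · refine ext (K := P') (L := N') Finset.subset_union_right Finset.subset_union_right cP' cN' (f := f) ?_ hf'
    rw [Finset.union_sdiff_cancel_right hP, Finset.union_sdiff_cancel_right hN]
    exact hf

/-- a unit from one pair of components -/
theorem Blk.of2 {c : V → Bool} {X T : Finset V} {k : ℕ} {H : SimpleGraph (Fin k)} {f g : Fin k → V}
    (hs : cn G X ⊆ T) (hd : dd c X = 1) (hf : Comp G (flp c X) true H f)
    (hg : Comp G (flp c X) false H g) (hfT : ∀ i, f i ∈ T) (hgT : ∀ i, g i ∈ T)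
    (hout : ∀ v, (∀ i, v ≠ f i) → (∀ i, v ≠ g i) → mu G (flp c X) v ≤ 1) : Blk G c X T := by
  refine ⟨hs, hd, Finset.univ.image f, Finset.univ.image g, ?_, ?_, Mat.of_comp hf hg, ?_⟩
  · intro v hv
    simp only [Finset.mem_image, Finset.mem_univ, true_and] at hv
    obtain ⟨i, rfl⟩ := hv
    exact hfT i
  · intro v hv
    simp only [Finset.mem_image, Finset.mem_univ, true_and] at hv
    obtain ⟨i, rfl⟩ := hv
    exact hgT i
  · intro v h1 h2
    simp only [Finset.mem_image, Finset.mem_univ, true_and, not_exists] at h1 h2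
    exact hout v (fun i h => h1 i h.symm) (fun i h => h2 i h.symm)

/-- a unit from two pairs of components -/
theorem Blk.of4 {c : V → Bool} {X T : Finset V} {k k' : ℕ} {H : SimpleGraph (Fin k)}
    {H' : SimpleGraph (Fin k')} {f g : Fin k → V} {f' g' : Fin k' → V}
    (hs : cn G X ⊆ T) (hd : dd c X = 1) (hf : Comp G (flp c X) true H f)
    (hg : Comp G (flp c X) false H g) (hf' : Comp G (flp c X) true H' f')
    (hg' : Comp G (flp c X) false H' g') (hff : ∀ i i', f i ≠ f' i') (hgg : ∀ i i', g i ≠ g' i')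
    (hfT : ∀ i, f i ∈ T) (hgT : ∀ i, g i ∈ T) (hfT' : ∀ i, f' i ∈ T) (hgT' : ∀ i, g' i ∈ T)
    (hout : ∀ v, (∀ i, v ≠ f i) → (∀ i, v ≠ g i) → (∀ i, v ≠ f' i) → (∀ i, v ≠ g' i) →
      mu G (flp c X) v ≤ 1) : Blk G c X T := by
  refine ⟨hs, hd, Finset.univ.image f ∪ Finset.univ.image f', Finset.univ.image g ∪ Finset.univ.image g',
    ?_, ?_, (Mat.of_comp hf hg).union (Mat.of_comp hf' hg') ?_ ?_, ?_⟩
  · intro v hv
    simp only [Finset.mem_union, Finset.mem_image, Finset.mem_univ, true_and] at hv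
    rcases hv with ⟨i, rfl⟩ | ⟨i, rfl⟩
    · exact hfT i
    · exact hfT' i
  · intro v hv
    simp only [Finset.mem_union, Finset.mem_image, Finset.mem_univ, true_and] at hv
    rcases hv with ⟨i, rfl⟩ | ⟨i, rfl⟩
    · exact hgT i
    · exact hgT' i
  · rw [Finset.disjoint_left]
    intro v h1 h2
    simp only [Finset.mem_image, Finset.mem_univ, true_and] at h1 h2
    obtain ⟨i, rfl⟩ := h1
    obtain ⟨i', h⟩ := h2
    exact hff i i' h.symm
  · rw [Finset.disjoint_left]
    intro v h1 h2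
    simp only [Finset.mem_image, Finset.mem_univ, true_and] at h1 h2
    obtain ⟨i, rfl⟩ := h1
    obtain ⟨i', h⟩ := h2
    exact hgg i i' h.symm
  · intro v h1 h2
    simp only [Finset.mem_union, Finset.mem_image, Finset.mem_univ, true_and, not_or, not_exists] at h1 h2
    exact hout v (fun i h => h1.1 i h.symm) (fun i h => h2.1 i h.symm) (fun i h => h1.2 i h.symm)
      (fun i h => h2.2 i h.symm)

/-! ### builders for the shapes -/

theorem comp3 {c : V → Bool} {b : Bool} {x y z : V} (hxz : x ≠ z)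
    (cx : c x = b) (hx : ∀ w, Rm G c x w ↔ w = y)
    (hy : ∀ w, Rm G c y w ↔ w = x ∨ w = z) (hz : ∀ w, Rm G c z w ↔ w = y) :
    Comp G c b (pth 3) ![x, y, z] := by
  have e1 : Rm G c x y := (hx y).2 rfl
  have e2 : Rm G c y z := (hy z).2 (Or.inr rfl)
  have n1 := e1.ne
  have n2 := e2.ne
  refine ⟨?_, ?_, ?_⟩
  · intro i i' h
    fin_cases i <;> fin_cases i' <;> simp_all
  · intro i
    have := e1.2
    have := e2.2
    fin_cases i <;> simp_all
  · intro i w
    simp only [Fin.exists_fin_succ, pth]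
    fin_cases i <;> simp [hx, hy, hz]

theorem comp4 {c : V → Bool} {b : Bool} {x y z t : V} (hxz : x ≠ z) (hyt : y ≠ t)
    (cx : c x = b) (hx : ∀ w, Rm G c x w ↔ w = y)
    (hy : ∀ w, Rm G c y w ↔ w = x ∨ w = z) (hz : ∀ w, Rm G c z w ↔ w = y ∨ w = t)
    (ht : ∀ w, Rm G c t w ↔ w = z) :
    Comp G c b (pth 4) ![x, y, z, t] := by
  have e1 : Rm G c x y := (hx y).2 rfl
  have e2 : Rm G c y z := (hy z).2 (Or.inr rfl)
  have e3 : Rm G c z t := (hz t).2 (Or.inr rfl)
  have n1 := e1.ne
  have n2 := e2.ne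
  have n3 := e3.ne
  have n4 : x ≠ t := by
    rintro rfl
    exact n2 ((hx z).1 e3.symm).symm
  refine ⟨?_, ?_, ?_⟩
  · intro i i' h
    fin_cases i <;> fin_cases i' <;> simp_all
  · intro i
    have := e1.2
    have := e2.2
    have := e3.2
    fin_cases i <;> simp_all
  · intro i w
    simp only [Fin.exists_fin_succ, pth]
    fin_cases i <;> simp [hx, hy, hz, ht]

theorem comp5 {c : V → Bool} {b : Bool} {x y z t r : V} (hxz : x ≠ z) (hyt : y ≠ t) (hzr : z ≠ r)
    (cx : c x = b) (hx : ∀ w, Rm G c x w ↔ w = y)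
    (hy : ∀ w, Rm G c y w ↔ w = x ∨ w = z) (hz : ∀ w, Rm G c z w ↔ w = y ∨ w = t)
    (ht : ∀ w, Rm G c t w ↔ w = z ∨ w = r) (hr : ∀ w, Rm G c r w ↔ w = t) :
    Comp G c b (pth 5) ![x, y, z, t, r] := by
  have e1 : Rm G c x y := (hx y).2 rfl
  have e2 : Rm G c y z := (hy z).2 (Or.inr rfl)
  have e3 : Rm G c z t := (hz t).2 (Or.inr rfl)
  have e4 : Rm G c t r := (ht r).2 (Or.inr rfl)
  have n1 := e1.ne
  have n2 := e2.ne
  have n3 := e3.ne
  have n4 := e4.ne
  have n5 : x ≠ t := by
    rintro rfl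
    exact n2 ((hx z).1 e3.symm).symm
  have n6 : x ≠ r := by
    rintro rfl
    exact hyt ((hx t).1 e4.symm).symm
  have n7 : y ≠ r := by
    rintro rfl
    exact n5 ((hr x).1 e1.symm)
  refine ⟨?_, ?_, ?_⟩
  · intro i i' h
    fin_cases i <;> fin_cases i' <;> simp_all
  · intro i
    have := e1.2
    have := e2.2
    have := e3.2
    have := e4.2
    fin_cases i <;> simp_all
  · intro i w
    simp only [Fin.exists_fin_succ, pth]
    fin_cases i <;> simp [hx, hy, hz, ht, hr]

theorem compK {c : V → Bool} {b : Bool} {x y z : V} (hxy : x ≠ y) (hyz : y ≠ z) (hxz : x ≠ z)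
    (cx : c x = b) (hx : ∀ w, Rm G c x w ↔ w = y ∨ w = z)
    (hy : ∀ w, Rm G c y w ↔ w = x ∨ w = z) (hz : ∀ w, Rm G c z w ↔ w = x ∨ w = y) :
    Comp G c b (cmp 3) ![x, y, z] := by
  have e1 : Rm G c x y := (hx y).2 (Or.inl rfl)
  have e2 : Rm G c x z := (hx z).2 (Or.inr rfl)
  refine ⟨?_, ?_, ?_⟩
  · intro i i' h
    fin_cases i <;> fin_cases i' <;> simp_all
  · intro i
    have := e1.2
    have := e2.2
    fin_cases i <;> simp_all
  · intro i w
    simp only [Fin.exists_fin_succ, cmp, SimpleGraph.top_adj]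
    fin_cases i <;> simp [hx, hy, hz]

/-! ### single operations and pairs -/

variable (G) in
/-- A single operation: flip `X`, everything happens inside `T`, exactly one hard component appears:
colour `b`, shape `H`; all other vertices have `mu ≤ 1` after the flip; `d(X) = d`. -/
structure OpC (c : V → Bool) (X T : Finset V) (d : ℤ) (b : Bool) {k : ℕ} (H : SimpleGraph (Fin k)) :
    Prop where
  sub : cn G X ⊆ T
  dX : dd c X = d
  hard : ∃ f : Fin k → V, (∀ i, f i ∈ T) ∧ Comp G (flp c X) b H f ∧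
    ∀ v, (∀ i, v ≠ f i) → mu G (flp c X) v ≤ 1

theorem mem_cn {X : Finset V} {v : V} : v ∈ cn G X ↔ v ∈ X ∨ ∃ x ∈ X, G.Adj v x := by
  unfold cn
  simp

theorem flp_union {c : V → Bool} {X X' T T' : Finset V} (hs : cn G X ⊆ T) (hs' : cn G X' ⊆ T')
    (hT : Disjoint T T') {v w : V} (hv : v ∈ T) (hw : w = v ∨ G.Adj v w) :
    flp c (X ∪ X') w = flp c X w := by
  refine flp_congr ?_
  rw [Finset.mem_union]
  constructor
  · rintro (h | h)
    · exact h
    · exfalso
      refine Finset.disjoint_left.1 hT hv (hs' (mem_cn.2 ?_))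
      rcases hw with rfl | hw
      · exact Or.inl h
      · exact Or.inr ⟨w, h, hw⟩
  · exact Or.inl

theorem flp_union' {c : V → Bool} {X X' T T' : Finset V} (hs : cn G X ⊆ T) (hs' : cn G X' ⊆ T')
    (hT : Disjoint T T') {v w : V} (hv : v ∈ T') (hw : w = v ∨ G.Adj v w) :
    flp c (X ∪ X') w = flp c X' w := by
  rw [Finset.union_comm]
  exact flp_union hs' hs hT.symm hv hw

theorem flp_union_out {c : V → Bool} {X X' T T' : Finset V} (hs : cn G X ⊆ T) (hs' : cn G X' ⊆ T')
    {v w : V} (hv : v ∉ T) (hv' : v ∉ T') (hw : w = v ∨ G.Adj v w) :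
    flp c (X ∪ X') w = c w := by
  refine flp_not ?_
  rw [Finset.mem_union]
  rintro (h | h)
  · refine hv (hs (mem_cn.2 ?_))
    rcases hw with rfl | hw
    · exact Or.inl h
    · exact Or.inr ⟨w, h, hw⟩
  · refine hv' (hs' (mem_cn.2 ?_))
    rcases hw with rfl | hw
    · exact Or.inl h
    · exact Or.inr ⟨w, h, hw⟩

theorem Comp.congr {c c' : V → Bool} {b : Bool} {k : ℕ} {H : SimpleGraph (Fin k)} {f : Fin k → V}
    (h : Comp G c b H f) (he : ∀ i w, w = f i ∨ G.Adj (f i) w → c' w = c w) : Comp G c' b H f := by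
  refine ⟨h.inj, fun i => ?_, fun i w => ?_⟩
  · rw [he i (f i) (Or.inl rfl)]
    exact h.col i
  · rw [← h.rm i w]
    unfold Rm
    constructor
    · rintro ⟨h1, h2⟩
      rw [he i w (Or.inr h1), he i (f i) (Or.inl rfl)] at h2
      exact ⟨h1, h2⟩
    · rintro ⟨h1, h2⟩
      rw [← he i w (Or.inr h1), ← he i (f i) (Or.inl rfl)] at h2
      exact ⟨h1, h2⟩

theorem dd_union {c : V → Bool} {X X' : Finset V} (h : Disjoint X X') :
    dd c (X ∪ X') = dd c X + dd c X' := by
  unfold dd
  exact Finset.sum_union h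

/-- an `L` and a `U` of the same shape with disjoint territories make a unit -/
theorem PAIR {c : V → Bool} (hm : ∀ v, mu G c v ≤ 1) {X T X' T' : Finset V} {k : ℕ}
    {H : SimpleGraph (Fin k)} (h : OpC G c X T 0 false H) (h' : OpC G c X' T' 1 true H)
    (hT : Disjoint T T') : Blk G c (X ∪ X') (T ∪ T') := by
  obtain ⟨s, d, g, gT, hg, og⟩ := h
  obtain ⟨s', d', f, fT, hf, of⟩ := h'
  have hX : X ⊆ T := fun v hv => s (mem_cn.2 (Or.inl hv))
  have hX' : X' ⊆ T' := fun v hv => s' (mem_cn.2 (Or.inl hv))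
  refine Blk.of2 (f := f) (g := g) (H := H) ?_ ?_ ?_ ?_ ?_ ?_ ?_
  · intro v hv
    rw [mem_cn] at hv
    rcases hv with hv | ⟨x, hx, hv⟩
    · rcases Finset.mem_union.1 hv with h | h
      · exact Finset.mem_union_left _ (hX h)
      · exact Finset.mem_union_right _ (hX' h)
    · rcases Finset.mem_union.1 hx with h | h
      · exact Finset.mem_union_left _ (s (mem_cn.2 (Or.inr ⟨x, h, hv⟩)))
      · exact Finset.mem_union_right _ (s' (mem_cn.2 (Or.inr ⟨x, h, hv⟩)))
  · rw [dd_union (Finset.disjoint_of_subset_left hX (Finset.disjoint_of_subset_right hX' hT)), d, d']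
    norm_num
  · exact hf.congr fun i w hw => flp_union' s s' hT (fT i) hw
  · exact hg.congr fun i w hw => flp_union s s' hT (gT i) hw
  · exact fun i => Finset.mem_union_right _ (fT i)
  · exact fun i => Finset.mem_union_left _ (gT i)
  · intro v h1 h2
    by_cases hv : v ∈ T
    · rw [mu_congr G (flp_union s s' hT hv (Or.inl rfl)) fun w hw => flp_union s s' hT hv (Or.inr hw)]
      exact og v h2
    · by_cases hv' : v ∈ T'
      · rw [mu_congr G (flp_union' s s' hT hv' (Or.inl rfl)) fun w hw => flp_union' s s' hT hv' (Or.inr hw)]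
        exact of v h1
      · rw [mu_congr G (flp_union_out s s' hv hv' (Or.inl rfl)) fun w hw => flp_union_out s s' hv hv' (Or.inr hw)]
        exact hm v

/-! ### territories -/

variable (G) in
/-- territory of a flip set: the closed neighbourhood and the mates of its members -/
def ter (c : V → Bool) (X : Finset V) : Finset V :=
  Finset.univ.filter (fun v => ∃ x ∈ cn G X, v = x ∨ (G.Adj x v ∧ c v = c x))

theorem mem_ter {c : V → Bool} {X : Finset V} {v : V} :
    v ∈ ter G c X ↔ ∃ x ∈ cn G X, v = x ∨ Rm G c x v := by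
  unfold ter Rm
  simp

theorem cn_ter {c : V → Bool} {X : Finset V} : cn G X ⊆ ter G c X :=
  fun v hv => mem_ter.2 ⟨v, hv, Or.inl rfl⟩

/-- disjoint territories: no common element and no mate pair between the closed neighbourhoods -/
theorem ter_disj {c : V → Bool} (hm : ∀ v, mu G c v ≤ 1) {X X' : Finset V}
    (h : ∀ x ∈ cn G X, ∀ x' ∈ cn G X', x ≠ x' ∧ ¬ Rm G c x x') : Disjoint (ter G c X) (ter G c X') := by
  rw [Finset.disjoint_left]
  intro v h1 h2
  obtain ⟨x, hx, h1⟩ := mem_ter.1 h1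
  obtain ⟨x', hx', h2⟩ := mem_ter.1 h2
  obtain ⟨n1, n2⟩ := h x hx x' hx'
  rcases h1 with rfl | h1 <;> rcases h2 with rfl | h2
  · exact n1 rfl
  · exact n2 h2.symm
  · exact n2 h1
  · exact n1 (rm_uniq (hm v) h1.symm h2.symm)

end Pool.Agent.Helper64.MC
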