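import Mathlib
import Pool.Agent.Helper64.MC.Comp

/-!
MP_4042d8_co: the operations `U(s)` and `L(u,a)`; they are valid in every simple cubic graph.
-/

set_option autoImplicit false
set_option linter.unusedSectionVars false
set_option linter.unusedSimpArgs false
set_option linter.unusedVariables false

namespace Pool.Agent.Helper64.MC

open Pool.Agent.Helper27.MC Pool.Agent.Helper51.MC Pool.Agent.Helper88.MC

variable {V : Type} [Fintype V] [DecidableEq V] {G : SimpleGraph V} [DecidableRel G.Adj]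

theorem flp_in {c : V → Bool} {X : Finset V} {v : V} (h : v ∈ X) : flp c X v = !(c v) := by
  unfold flp
  simp [h]

/-- mono neighbours after a flip, vertex outside `X` -/
theorem rm_out {c : V → Bool} {X : Finset V} {v : V} (hv : v ∉ X) (w : V) :
    Rm G (flp c X) v w ↔ (w ∉ X ∧ Rm G c v w) ∨ (w ∈ X ∧ G.Adj v w ∧ c w ≠ c v) := by
  unfold Rm
  rw [flp_not hv]
  by_cases hw : w ∈ X
  · rw [flp_in hw]
    cases c w <;> cases c v <;> simp [hw]
  · rw [flp_not hw]
    simp [hw]

/-- mono neighbours after a flip, vertex in `X` -/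
theorem rm_in {c : V → Bool} {X : Finset V} {v : V} (hv : v ∈ X) (w : V) :
    Rm G (flp c X) v w ↔ (w ∈ X ∧ Rm G c v w) ∨ (w ∉ X ∧ G.Adj v w ∧ c w ≠ c v) := by
  unfold Rm
  rw [flp_in hv]
  by_cases hw : w ∈ X
  · rw [flp_in hw]
    cases c w <;> cases c v <;> simp [hw]
  · rw [flp_not hw]
    cases c w <;> cases c v <;> simp [hw]

/-- no mate -/
theorem nomate {c : V → Bool} {v : V} (h : mu G c v = 0) (w : V) : ¬ Rm G c v w := mu_zero h w

section U

variable {c : V → Bool} {s m a b : V}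

theorem U_mem (nb : ∀ w, G.Adj s w ↔ w = m ∨ w = a ∨ w = b) (v : V) :
    v ∈ cn G {s} ↔ v = s ∨ v = m ∨ v = a ∨ v = b := by
  rw [mem_cn]
  simp only [Finset.mem_singleton, exists_eq_left]
  rw [G.adj_comm, nb]

theorem U_s (hs : c s = false) (nb : ∀ w, G.Adj s w ↔ w = m ∨ w = a ∨ w = b) (cm : c m = false)
    (ca : c a = true) (cb : c b = true) (w : V) : Rm G (flp c {s}) s w ↔ w = a ∨ w = b := by
  rw [rm_in (Finset.mem_singleton_self s), nb]
  simp only [Finset.mem_singleton]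
  have := G.loopless.irrefl s
  constructor
  · rintro (⟨rfl, h, -⟩ | ⟨h1, h2 | h2 | h2, h3⟩)
    · exact absurd h this
    · subst h2
      rw [cm, hs] at h3
      exact absurd rfl h3
    · exact Or.inl h2
    · exact Or.inr h2
  · intro h
    refine Or.inr ⟨?_, ?_, ?_⟩
    · rintro rfl
      rcases h with rfl | rfl
      · rw [hs] at ca; cases ca
      · rw [hs] at cb; cases cb
    · rcases h with rfl | rfl <;> simp
    · rcases h with rfl | rfl
      · rw [ca, hs]; decide
      · rw [cb, hs]; decide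

/-- true vertices near `s` -/
theorem U_t (hs : c s = false) {v : V} (hv : c v = true) (w : V) :
    Rm G (flp c {s}) v w ↔ Rm G c v w ∨ (w = s ∧ G.Adj s v) := by
  have hvs : v ∉ ({s} : Finset V) := by
    rw [Finset.mem_singleton]
    rintro rfl
    rw [hs] at hv
    cases hv
  rw [rm_out hvs]
  simp only [Finset.mem_singleton]
  constructor
  · rintro (⟨h1, h2⟩ | ⟨rfl, h2, h3⟩)
    · exact Or.inl h2
    · exact Or.inr ⟨rfl, h2.symm⟩
  · rintro (h | ⟨rfl, h⟩)
    · refine Or.inl ⟨?_, h⟩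
      rintro rfl
      have := h.2
      rw [hs, hv] at this
      cases this
    · refine Or.inr ⟨rfl, h.symm, ?_⟩
      rw [hs, hv]
      decide

/-- false vertices -/
theorem U_f (hs : c s = false) {v : V} (hv : c v = false) (hvs : v ≠ s) (w : V) :
    Rm G (flp c {s}) v w ↔ Rm G c v w ∧ w ≠ s := by
  rw [rm_out (by simpa using hvs)]
  simp only [Finset.mem_singleton]
  constructor
  · rintro (⟨h1, h2⟩ | ⟨rfl, h2, h3⟩)
    · exact ⟨h2, h1⟩
    · rw [hs, hv] at h3
      exact absurd rfl h3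
  · rintro ⟨h1, h2⟩
    exact Or.inl ⟨h2, h1⟩

theorem mu_mono {c c' : V → Bool} {v : V} (h : ∀ y, Rm G c' v y → Rm G c v y) :
    mu G c' v ≤ mu G c v := by
  unfold mu
  apply Finset.card_le_card
  intro y hy
  simp only [Finset.mem_filter, Finset.mem_univ, true_and] at hy ⊢
  exact h y hy

theorem U_out (hm : ∀ v, mu G c v ≤ 1) (hs : c s = false)
    (nb : ∀ w, G.Adj s w ↔ w = m ∨ w = a ∨ w = b) (cm : c m = false) {v : V} (hvs : v ≠ s)
    (hva : v ≠ a) (hvb : v ≠ b) : mu G (flp c {s}) v ≤ 1 := by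
  refine (mu_mono fun y hy => ?_).trans (hm v)
  cases hv : c v
  · exact ((U_f hs hv hvs y).1 hy).1
  · rcases (U_t hs hv y).1 hy with h | ⟨rfl, h⟩
    · exact h
    · rcases (nb v).1 h with rfl | h | h
      · rw [cm] at hv; cases hv
      · exact absurd h hva
      · exact absurd h hvb

theorem U_T (nb : ∀ w, G.Adj s w ↔ w = m ∨ w = a ∨ w = b) :
    s ∈ ter G c {s} ∧ a ∈ ter G c {s} ∧ b ∈ ter G c {s} := by
  refine ⟨cn_ter ((U_mem nb s).2 ?_), cn_ter ((U_mem nb a).2 ?_), cn_ter ((U_mem nb b).2 ?_)⟩ <;> simp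

theorem ter_mate {X : Finset V} {x y : V} (hx : x ∈ cn G X) (h : Rm G c x y) : y ∈ ter G c X :=
  mem_ter.2 ⟨x, hx, Or.inr h⟩

theorem U_dd (hs : c s = false) : dd c {s} = 1 := by
  unfold dd
  simp [hs]

/-- `U(s)`, both true neighbours of type `A` -/
theorem U3 (hm : ∀ v, mu G c v ≤ 1) (hs : c s = false)
    (nb : ∀ w, G.Adj s w ↔ w = m ∨ w = a ∨ w = b) (cm : c m = false)
    (ca : c a = true) (cb : c b = true) (hab : a ≠ b) (ma : mu G c a = 0) (mb : mu G c b = 0) :
    OpC G c {s} (ter G c {s}) 1 true (pth 3) := by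
  have cs : flp c {s} s = true := by rw [flp_in (Finset.mem_singleton_self s), hs]; rfl
  obtain ⟨T1, T2, T3⟩ := U_T (c := c) nb
  have Ra : ∀ w, Rm G (flp c {s}) a w ↔ w = s := by
    intro w
    rw [U_t hs ca, nb]
    have := nomate ma w
    tauto
  have Rb : ∀ w, Rm G (flp c {s}) b w ↔ w = s := by
    intro w
    rw [U_t hs cb, nb]
    have := nomate mb w
    tauto
  have ca' : flp c {s} a = true := by
    have := ((Ra s).2 rfl).2
    rw [← this, cs]
  refine ⟨cn_ter, U_dd hs, ![a, s, b], ?_, ?_, ?_⟩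
  · intro i
    fin_cases i
    · exact T2
    · exact T1
    · exact T3
  · exact comp3 hab ca' Ra (U_s hs nb cm ca cb) Rb
  · intro v hv
    exact U_out hm hs nb cm (hv 1) (hv 0) (hv 2)

/-- `U(s)`, one true neighbour `a` of type `A`, the other one `b` with mate `q` -/
theorem U4 (hm : ∀ v, mu G c v ≤ 1) (hs : c s = false)
    (nb : ∀ w, G.Adj s w ↔ w = m ∨ w = a ∨ w = b) (cm : c m = false)
    (ca : c a = true) (cb : c b = true) (hab : a ≠ b) (ma : mu G c a = 0) {q : V}
    (hq : Rm G c b q) :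
    OpC G c {s} (ter G c {s}) 1 true (pth 4) := by
  have cs : flp c {s} s = true := by rw [flp_in (Finset.mem_singleton_self s), hs]; rfl
  obtain ⟨T1, T2, T3⟩ := U_T (c := c) nb
  have cq : c q = true := by rw [hq.2, cb]
  have Rc : ∀ w, Rm G c b w ↔ w = q := fun w => ⟨fun h => rm_uniq (hm b) h hq, fun h => h ▸ hq⟩
  have Rd : ∀ w, Rm G c q w ↔ w = b := fun w => ⟨fun h => rm_uniq (hm q) h hq.symm, fun h => h ▸ hq.symm⟩
  have nqs : ¬ G.Adj s q := by
    rw [nb]
    rintro (rfl | rfl | rfl)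
    · rw [cm] at cq; cases cq
    · exact nomate ma b hq.symm
    · exact hq.ne rfl
  have Ra : ∀ w, Rm G (flp c {s}) a w ↔ w = s := by
    intro w
    rw [U_t hs ca, nb]
    have := nomate ma w
    tauto
  have Rb : ∀ w, Rm G (flp c {s}) b w ↔ w = s ∨ w = q := by
    intro w
    rw [U_t hs cb, nb, Rc]
    tauto
  have Rq : ∀ w, Rm G (flp c {s}) q w ↔ w = b := by
    intro w
    rw [U_t hs cq, Rd]
    tauto
  have ca' : flp c {s} a = true := by
    have := ((Ra s).2 rfl).2
    rw [← this, cs]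
  have hsq : s ≠ q := by
    rintro rfl
    rw [hs] at cq; cases cq
  refine ⟨cn_ter, U_dd hs, ![a, s, b, q], ?_, ?_, ?_⟩
  · intro i
    fin_cases i
    · exact T2
    · exact T1
    · exact T3
    · exact ter_mate ((U_mem nb b).2 (by simp)) hq
  · exact comp4 hab hsq ca' Ra (U_s hs nb cm ca cb) Rb Rq
  · intro v hv
    exact U_out hm hs nb cm (hv 1) (hv 0) (hv 2)

/-- `U(s)`, both true neighbours with mates `p`, `q`, not mates of each other -/
theorem U5 (hm : ∀ v, mu G c v ≤ 1) (hs : c s = false)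
    (nb : ∀ w, G.Adj s w ↔ w = m ∨ w = a ∨ w = b) (cm : c m = false)
    (ca : c a = true) (cb : c b = true) (hab : a ≠ b) {p q : V} (hp : Rm G c a p)
    (hq : Rm G c b q) (hpb : p ≠ b) :
    OpC G c {s} (ter G c {s}) 1 true (pth 5) := by
  have cs : flp c {s} s = true := by rw [flp_in (Finset.mem_singleton_self s), hs]; rfl
  obtain ⟨T1, T2, T3⟩ := U_T (c := c) nb
  have cp : c p = true := by rw [hp.2, ca]
  have cq : c q = true := by rw [hq.2, cb]
  have Ra0 : ∀ w, Rm G c a w ↔ w = p := fun w => ⟨fun h => rm_uniq (hm a) h hp, fun h => h ▸ hp⟩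
  have Rp0 : ∀ w, Rm G c p w ↔ w = a := fun w => ⟨fun h => rm_uniq (hm p) h hp.symm, fun h => h ▸ hp.symm⟩
  have Rb0 : ∀ w, Rm G c b w ↔ w = q := fun w => ⟨fun h => rm_uniq (hm b) h hq, fun h => h ▸ hq⟩
  have Rq0 : ∀ w, Rm G c q w ↔ w = b := fun w => ⟨fun h => rm_uniq (hm q) h hq.symm, fun h => h ▸ hq.symm⟩
  have nqs : ¬ G.Adj s q := by
    rw [nb]
    rintro (rfl | rfl | rfl)
    · rw [cm] at cq; cases cq
    · exact hpb ((Ra0 b).1 hq.symm).symm
    · exact hq.ne rfl
  have nps : ¬ G.Adj s p := by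
    rw [nb]
    rintro (rfl | rfl | rfl)
    · rw [cm] at cp; cases cp
    · exact hp.ne rfl
    · exact hpb rfl
  have Ra : ∀ w, Rm G (flp c {s}) a w ↔ w = p ∨ w = s := by
    intro w
    rw [U_t hs ca, nb, Ra0]
    tauto
  have Rb : ∀ w, Rm G (flp c {s}) b w ↔ w = s ∨ w = q := by
    intro w
    rw [U_t hs cb, nb, Rb0]
    tauto
  have Rq : ∀ w, Rm G (flp c {s}) q w ↔ w = b := by
    intro w
    rw [U_t hs cq, Rq0]
    tauto
  have Rp : ∀ w, Rm G (flp c {s}) p w ↔ w = a := by
    intro w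
    rw [U_t hs cp, Rp0]
    tauto
  have cp' : flp c {s} p = true := by
    have h1 := ((Ra s).2 (Or.inr rfl)).2
    have h2 := ((Ra p).2 (Or.inl rfl)).2
    rw [h2, ← h1, cs]
  have hsq : s ≠ q := by
    rintro rfl
    rw [hs] at cq; cases cq
  have hsp : s ≠ p := by
    rintro rfl
    rw [hs] at cp; cases cp
  refine ⟨cn_ter, U_dd hs, ![p, a, s, b, q], ?_, ?_, ?_⟩
  · intro i
    fin_cases i
    · exact ter_mate ((U_mem nb a).2 (by simp)) hp
    · exact T2
    · exact T1
    · exact T3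
    · exact ter_mate ((U_mem nb b).2 (by simp)) hq
  · exact comp5 hsp.symm hab hsq cp' Rp Ra (U_s hs nb cm ca cb) Rb Rq
  · intro v hv
    exact U_out hm hs nb cm (hv 2) (hv 1) (hv 3)

/-- `U(s)`, the two true neighbours are mates -/
theorem UK (hm : ∀ v, mu G c v ≤ 1) (hs : c s = false)
    (nb : ∀ w, G.Adj s w ↔ w = m ∨ w = a ∨ w = b) (cm : c m = false)
    (ca : c a = true) (cb : c b = true) (hab : Rm G c a b) :
    OpC G c {s} (ter G c {s}) 1 true (cmp 3) := by
  have cs : flp c {s} s = true := by rw [flp_in (Finset.mem_singleton_self s), hs]; rfl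
  obtain ⟨T1, T2, T3⟩ := U_T (c := c) nb
  have Ra0 : ∀ w, Rm G c a w ↔ w = b := fun w => ⟨fun h => rm_uniq (hm a) h hab, fun h => h ▸ hab⟩
  have Rb0 : ∀ w, Rm G c b w ↔ w = a := fun w => ⟨fun h => rm_uniq (hm b) h hab.symm, fun h => h ▸ hab.symm⟩
  have Ra : ∀ w, Rm G (flp c {s}) a w ↔ w = b ∨ w = s := by
    intro w
    rw [U_t hs ca, nb, Ra0]
    tauto
  have Rb : ∀ w, Rm G (flp c {s}) b w ↔ w = a ∨ w = s := by
    intro w
    rw [U_t hs cb, nb, Rb0]
    tauto
  have ca' : flp c {s} a = true := by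
    have h1 := ((Ra s).2 (Or.inr rfl)).2
    rw [← h1, cs]
  have hsa : s ≠ a := by
    rintro rfl
    rw [hs] at ca; cases ca
  have hsb : s ≠ b := by
    rintro rfl
    rw [hs] at cb; cases cb
  refine ⟨cn_ter, U_dd hs, ![a, b, s], ?_, ?_, ?_⟩
  · intro i
    fin_cases i
    · exact T2
    · exact T3
    · exact T1
  · exact compK hab.ne hsb.symm hsa.symm ca' Ra Rb (U_s hs nb cm ca cb)
  · intro v hv
    exact U_out hm hs nb cm (hv 2) (hv 0) (hv 1)

end U

/-! ### `L(u,a)` -/

section L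

variable {c : V → Bool} {u m a b x y : V}

variable (G) in
/-- the data of a slot `(u,a)`: `u` false with mate `m`, `a` and `b` of type `A`, `a ~ u, x, y` -/
structure Slot (c : V → Bool) (u m a b x y : V) : Prop where
  cu : c u = false
  cm : c m = false
  ca : c a = true
  cb : c b = true
  ma : mu G c a = 0
  mb : mu G c b = 0
  hab : a ≠ b
  nbu : ∀ w, G.Adj u w ↔ w = m ∨ w = a ∨ w = b
  nba : ∀ w, G.Adj a w ↔ w = u ∨ w = x ∨ w = y
  hxy : x ≠ y
  hxu : x ≠ u
  hyu : y ≠ u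

theorem false_of_A {a x : V} (ca : c a = true) (ma : mu G c a = 0) (h : G.Adj a x) : c x = false := by
  cases hx : c x
  · rfl
  · exact absurd ⟨h, by rw [hx, ca]⟩ (nomate ma x)

variable (S : Slot G c u m a b x y)
include S

theorem Slot.cx : c x = false := false_of_A S.ca S.ma ((S.nba x).2 (by simp))
theorem Slot.cy : c y = false := false_of_A S.ca S.ma ((S.nba y).2 (by simp))
theorem Slot.um : Rm G c u m := ⟨(S.nbu m).2 (by simp), by rw [S.cm, S.cu]⟩
theorem Slot.ua : u ≠ a := by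
  rintro rfl
  have := S.ca
  rw [S.cu] at this; cases this
theorem Slot.ub : u ≠ b := by
  rintro rfl
  have := S.cb
  rw [S.cu] at this; cases this

theorem Slot.symm : Slot G c u m a b y x :=
  ⟨S.cu, S.cm, S.ca, S.cb, S.ma, S.mb, S.hab, S.nbu, fun w => by rw [S.nba]; tauto, S.hxy.symm, S.hyu, S.hxu⟩

theorem L_mem (v : V) : v ∈ cn G {u, a} ↔ v = u ∨ v = a ∨ v = m ∨ v = b ∨ v = x ∨ v = y := by
  rw [mem_cn]
  simp only [Finset.mem_insert, Finset.mem_singleton, exists_eq_or_imp, exists_eq_left]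
  rw [G.adj_comm v u, G.adj_comm v a, S.nbu, S.nba]
  tauto

theorem L_u (w : V) : Rm G (flp c {u, a}) u w ↔ w = b := by
  rw [rm_in (by simp), S.nbu]
  simp only [Finset.mem_insert, Finset.mem_singleton]
  have h1 := S.cu
  have h2 := S.cm
  have h3 := S.ca
  have h4 := S.cb
  have h5 := S.ua
  have h6 := S.ub
  have h7 := S.hab
  constructor
  · rintro (⟨rfl | rfl, h⟩ | ⟨h, rfl | rfl | rfl, h'⟩)
    · exact absurd rfl h.ne
    · have := h.2
      rw [h3, h1] at this; cases this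
    · rw [h1, h2] at h'; exact absurd rfl h'
    · exact absurd (Or.inr rfl) h
    · rfl
  · rintro rfl
    refine Or.inr ⟨?_, Or.inr (Or.inr rfl), ?_⟩
    · rintro (h | h)
      · exact h6 h.symm
      · exact h7 h.symm
    · rw [h4, h1]; decide

theorem L_a (w : V) : Rm G (flp c {u, a}) a w ↔ w = x ∨ w = y := by
  rw [rm_in (by simp), S.nba]
  simp only [Finset.mem_insert, Finset.mem_singleton]
  have h1 := S.cx
  have h2 := S.cy
  have h3 := S.ca
  have h5 := S.hxu
  have h6 := S.hyu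
  constructor
  · rintro (⟨h, h'⟩ | ⟨h, rfl | h | h, h'⟩)
    · exact absurd h' (nomate S.ma w)
    · exact absurd (Or.inl rfl) h
    · exact Or.inl h
    · exact Or.inr h
  · rintro (rfl | rfl)
    · refine Or.inr ⟨?_, by simp, ?_⟩
      · rintro (h | h)
        · exact h5 h
        · rw [h, h3] at h1; cases h1
      · rw [h1, h3]; decide
    · refine Or.inr ⟨?_, by simp, ?_⟩
      · rintro (h | h)
        · exact h6 h
        · rw [h, h3] at h2; cases h2
      · rw [h2, h3]; decide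

/-- false vertices after `L` -/
theorem L_f {v : V} (hv : c v = false) (hvu : v ≠ u) (w : V) :
    Rm G (flp c {u, a}) v w ↔ (Rm G c v w ∧ w ≠ u) ∨ (w = a ∧ G.Adj a v) := by
  have hva : v ≠ a := by
    rintro rfl
    have := S.ca
    rw [hv] at this; cases this
  rw [rm_out (by simp [hvu, hva])]
  simp only [Finset.mem_insert, Finset.mem_singleton]
  constructor
  · rintro (⟨h1, h2⟩ | ⟨rfl | rfl, h2, h3⟩)
    · exact Or.inl ⟨h2, fun h => h1 (Or.inl h)⟩
    · rw [S.cu, hv] at h3; exact absurd rfl h3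
    · exact Or.inr ⟨rfl, h2.symm⟩
  · rintro (⟨h1, h2⟩ | ⟨rfl, h⟩)
    · refine Or.inl ⟨?_, h1⟩
      rintro (h | h)
      · exact h2 h
      · have := h1.2
        rw [h, S.ca, hv] at this; cases this
    · refine Or.inr ⟨Or.inr rfl, h.symm, ?_⟩
      rw [S.ca, hv]; decide

/-- true vertices after `L` -/
theorem L_t {v : V} (hv : c v = true) (hva : v ≠ a) (w : V) :
    Rm G (flp c {u, a}) v w ↔ Rm G c v w ∨ (w = u ∧ G.Adj u v) := by
  have hvu : v ≠ u := by
    rintro rfl
    have := S.cu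
    rw [hv] at this; cases this
  rw [rm_out (by simp [hvu, hva])]
  simp only [Finset.mem_insert, Finset.mem_singleton]
  constructor
  · rintro (⟨h1, h2⟩ | ⟨rfl | rfl, h2, h3⟩)
    · exact Or.inl h2
    · exact Or.inr ⟨rfl, h2.symm⟩
    · rw [S.ca, hv] at h3; exact absurd rfl h3
  · rintro (h1 | ⟨rfl, h⟩)
    · refine Or.inl ⟨?_, h1⟩
      rintro (h | h)
      · have := h1.2
        rw [h, S.cu, hv] at this; cases this
      · subst h
        exact nomate S.ma v h1.symm
    · refine Or.inr ⟨Or.inl rfl, h.symm, ?_⟩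
      rw [S.cu, hv]; decide

theorem L_out (hm : ∀ v, mu G c v ≤ 1) {v : V} (hva : v ≠ a) (hvx : v ≠ x) (hvy : v ≠ y) :
    mu G (flp c {u, a}) v ≤ 1 := by
  by_cases hvu : v = u
  · subst hvu
    exact mu_le_one fun w hw => (L_u S w).1 hw
  · by_cases hvb : v = b
    · subst hvb
      refine mu_le_one (z := u) fun w hw => ?_
      rcases (L_t S S.cb hva w).1 hw with h | h
      · exact absurd h (nomate S.mb w)
      · exact h.1
    · refine (mu_mono fun w hw => ?_).trans (hm v)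
      cases hv : c v
      · rcases (L_f S hv hvu w).1 hw with h | ⟨rfl, h⟩
        · exact h.1
        · rcases (S.nba v).1 h with h | h | h
          · exact absurd h hvu
          · exact absurd h hvx
          · exact absurd h hvy
      · rcases (L_t S hv hva w).1 hw with h | ⟨rfl, h⟩
        · exact h
        · rcases (S.nbu v).1 h with rfl | h | h
          · rw [S.cm] at hv; cases hv
          · exact absurd h hva
          · exact absurd h hvb

theorem L_dd : dd c {u, a} = 0 := by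
  unfold dd
  rw [Finset.sum_pair S.ua, S.cu, S.ca]
  simp

theorem L_ca : flp c {u, a} a = false := by
  rw [flp_in (by simp), S.ca]
  rfl

theorem L_cx : flp c {u, a} x = false := by
  have := ((L_a S x).2 (Or.inl rfl)).2
  rw [this, L_ca S]

theorem L_x (w : V) : Rm G (flp c {u, a}) x w ↔ (Rm G c x w ∧ w ≠ u) ∨ w = a := by
  rw [L_f S S.cx S.hxu w]
  have : G.Adj a x := (S.nba x).2 (by simp)
  tauto

theorem L_T : a ∈ ter G c {u, a} ∧ x ∈ ter G c {u, a} ∧ y ∈ ter G c {u, a} := by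
  refine ⟨cn_ter ((L_mem S a).2 ?_), cn_ter ((L_mem S x).2 ?_), cn_ter ((L_mem S y).2 ?_)⟩ <;> simp

/-- `L(u,a)`: neither `x` nor `y` has a mate other than `u` -/
theorem L3 (hm : ∀ v, mu G c v ≤ 1) (hx : ∀ w, Rm G c x w → w = u) (hy : ∀ w, Rm G c y w → w = u) :
    OpC G c {u, a} (ter G c {u, a}) 0 false (pth 3) := by
  obtain ⟨T1, T2, T3⟩ := L_T S
  have Rx : ∀ w, Rm G (flp c {u, a}) x w ↔ w = a := by
    intro w
    rw [L_x S]
    have := hx w
    tauto
  have Ry : ∀ w, Rm G (flp c {u, a}) y w ↔ w = a := by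
    intro w
    rw [L_x S.symm]
    have := hy w
    tauto
  refine ⟨cn_ter, L_dd S, ![x, a, y], ?_, ?_, ?_⟩
  · intro i
    fin_cases i
    · exact T2
    · exact T1
    · exact T3
  · exact comp3 S.hxy (L_cx S) Rx (L_a S) Ry
  · intro v hv
    exact L_out S hm (hv 1) (hv 0) (hv 2)

/-- `L(u,a)`: `x` has no mate other than `u`, `y` has the mate `r ≠ u` -/
theorem L4 (hm : ∀ v, mu G c v ≤ 1) (hx : ∀ w, Rm G c x w → w = u) {r : V} (hr : Rm G c y r)
    (hru : r ≠ u) : OpC G c {u, a} (ter G c {u, a}) 0 false (pth 4) := by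
  obtain ⟨T1, T2, T3⟩ := L_T S
  have cr : c r = false := by rw [hr.2, S.cy]
  have Ry0 : ∀ w, Rm G c y w ↔ w = r := fun w => ⟨fun h => rm_uniq (hm y) h hr, fun h => h ▸ hr⟩
  have Rr0 : ∀ w, Rm G c r w ↔ w = y := fun w => ⟨fun h => rm_uniq (hm r) h hr.symm, fun h => h ▸ hr.symm⟩
  have nar : ¬ G.Adj a r := by
    rw [S.nba]
    rintro (h | rfl | rfl)
    · exact hru h
    · exact S.hyu (hx y hr.symm)
    · exact hr.ne rfl
  have Rx : ∀ w, Rm G (flp c {u, a}) x w ↔ w = a := by
    intro w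
    rw [L_x S]
    have := hx w
    tauto
  have Ry : ∀ w, Rm G (flp c {u, a}) y w ↔ w = a ∨ w = r := by
    intro w
    rw [L_x S.symm, Ry0]
    constructor
    · rintro (h | h)
      · exact Or.inr h.1
      · exact Or.inl h
    · rintro (h | h)
      · exact Or.inr h
      · exact Or.inl ⟨h, h ▸ hru⟩
  have Rr : ∀ w, Rm G (flp c {u, a}) r w ↔ w = y := by
    intro w
    rw [L_f S cr hru, Rr0]
    constructor
    · rintro (h | h)
      · exact h.1
      · exact absurd h.2 nar
    · intro h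
      exact Or.inl ⟨h, h ▸ S.hyu⟩
  have har : a ≠ r := by
    rintro rfl
    rw [S.ca] at cr; cases cr
  refine ⟨cn_ter, L_dd S, ![x, a, y, r], ?_, ?_, ?_⟩
  · intro i
    fin_cases i
    · exact T2
    · exact T1
    · exact T3
    · exact ter_mate ((L_mem S y).2 (by simp)) hr
  · exact comp4 S.hxy har (L_cx S) Rx (L_a S) Ry Rr
  · intro v hv
    exact L_out S hm (hv 1) (hv 0) (hv 2)

/-- `L(u,a)`: `x`, `y` have mates `p`, `r` other than `u`, and are not mates -/
theorem L5 (hm : ∀ v, mu G c v ≤ 1) {p r : V} (hp : Rm G c x p) (hpu : p ≠ u) (hr : Rm G c y r)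
    (hru : r ≠ u) (hpy : p ≠ y) : OpC G c {u, a} (ter G c {u, a}) 0 false (pth 5) := by
  obtain ⟨T1, T2, T3⟩ := L_T S
  have cr : c r = false := by rw [hr.2, S.cy]
  have cp : c p = false := by rw [hp.2, S.cx]
  have Rx0 : ∀ w, Rm G c x w ↔ w = p := fun w => ⟨fun h => rm_uniq (hm x) h hp, fun h => h ▸ hp⟩
  have Rp0 : ∀ w, Rm G c p w ↔ w = x := fun w => ⟨fun h => rm_uniq (hm p) h hp.symm, fun h => h ▸ hp.symm⟩
  have Ry0 : ∀ w, Rm G c y w ↔ w = r := fun w => ⟨fun h => rm_uniq (hm y) h hr, fun h => h ▸ hr⟩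
  have Rr0 : ∀ w, Rm G c r w ↔ w = y := fun w => ⟨fun h => rm_uniq (hm r) h hr.symm, fun h => h ▸ hr.symm⟩
  have nar : ¬ G.Adj a r := by
    rw [S.nba]
    rintro (h | rfl | rfl)
    · exact hru h
    · exact hpy ((Rx0 y).1 hr.symm).symm
    · exact hr.ne rfl
  have nap : ¬ G.Adj a p := by
    rw [S.nba]
    rintro (h | rfl | rfl)
    · exact hpu h
    · exact hp.ne rfl
    · exact hpy rfl
  have Rx : ∀ w, Rm G (flp c {u, a}) x w ↔ w = p ∨ w = a := by
    intro w
    rw [L_x S, Rx0]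
    constructor
    · rintro (h | h)
      · exact Or.inl h.1
      · exact Or.inr h
    · rintro (h | h)
      · exact Or.inl ⟨h, h ▸ hpu⟩
      · exact Or.inr h
  have Ry : ∀ w, Rm G (flp c {u, a}) y w ↔ w = a ∨ w = r := by
    intro w
    rw [L_x S.symm, Ry0]
    constructor
    · rintro (h | h)
      · exact Or.inr h.1
      · exact Or.inl h
    · rintro (h | h)
      · exact Or.inr h
      · exact Or.inl ⟨h, h ▸ hru⟩
  have Rr : ∀ w, Rm G (flp c {u, a}) r w ↔ w = y := by
    intro w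
    rw [L_f S cr hru, Rr0]
    constructor
    · rintro (h | h)
      · exact h.1
      · exact absurd h.2 nar
    · intro h
      exact Or.inl ⟨h, h ▸ S.hyu⟩
  have Rp : ∀ w, Rm G (flp c {u, a}) p w ↔ w = x := by
    intro w
    rw [L_f S cp hpu, Rp0]
    constructor
    · rintro (h | h)
      · exact h.1
      · exact absurd h.2 nap
    · intro h
      exact Or.inl ⟨h, h ▸ S.hxu⟩
  have har : a ≠ r := by
    rintro rfl
    rw [S.ca] at cr; cases cr
  have hap : a ≠ p := by
    rintro rfl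
    rw [S.ca] at cp; cases cp
  have cp' : flp c {u, a} p = false := by
    have := ((Rx p).2 (Or.inl rfl)).2
    rw [this, L_cx S]
  refine ⟨cn_ter, L_dd S, ![p, x, a, y, r], ?_, ?_, ?_⟩
  · intro i
    fin_cases i
    · exact ter_mate ((L_mem S x).2 (by simp)) hp
    · exact T2
    · exact T1
    · exact T3
    · exact ter_mate ((L_mem S y).2 (by simp)) hr
  · exact comp5 hap.symm S.hxy har cp' Rp Rx (L_a S) Ry Rr
  · intro v hv
    exact L_out S hm (hv 2) (hv 1) (hv 3)

/-- `L(u,a)`: `x`, `y` are mates -/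
theorem LK (hm : ∀ v, mu G c v ≤ 1) (h : Rm G c x y) :
    OpC G c {u, a} (ter G c {u, a}) 0 false (cmp 3) := by
  obtain ⟨T1, T2, T3⟩ := L_T S
  have Rx0 : ∀ w, Rm G c x w ↔ w = y := fun w => ⟨fun h' => rm_uniq (hm x) h' h, fun h' => h' ▸ h⟩
  have Ry0 : ∀ w, Rm G c y w ↔ w = x := fun w => ⟨fun h' => rm_uniq (hm y) h' h.symm, fun h' => h' ▸ h.symm⟩
  have Rx : ∀ w, Rm G (flp c {u, a}) x w ↔ w = y ∨ w = a := by
    intro w
    rw [L_x S, Rx0]
    constructor
    · rintro (h | h)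
      · exact Or.inl h.1
      · exact Or.inr h
    · rintro (h | h)
      · exact Or.inl ⟨h, h ▸ S.hyu⟩
      · exact Or.inr h
  have Ry : ∀ w, Rm G (flp c {u, a}) y w ↔ w = x ∨ w = a := by
    intro w
    rw [L_x S.symm, Ry0]
    constructor
    · rintro (h | h)
      · exact Or.inl h.1
      · exact Or.inr h
    · rintro (h | h)
      · exact Or.inl ⟨h, h ▸ S.hxu⟩
      · exact Or.inr h
  have hax : a ≠ x := by
    rintro rfl
    have := S.ca
    rw [S.cx] at this; cases this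
  have hay : a ≠ y := by
    rintro rfl
    have := S.ca
    rw [S.cy] at this; cases this
  refine ⟨cn_ter, L_dd S, ![x, y, a], ?_, ?_, ?_⟩
  · intro i
    fin_cases i
    · exact T2
    · exact T3
    · exact T1
  · exact compK S.hxy hay.symm hax.symm (L_cx S) Rx Ry (L_a S)
  · intro v hv
    exact L_out S hm (hv 2) (hv 0) (hv 1)

end L

end Pool.Agent.Helper64.MC
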