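import Mathlib
import Pool.Agent.Helper64.MC.Ops

/-!
MP_4042d8_co: cost of a flip, the inequalities (P) and (P').
-/

set_option autoImplicit false
set_option linter.unusedSectionVars false
set_option linter.unusedSimpArgs false
set_option linter.unusedVariables false

namespace Pool.Agent.Helper64.MC

open Pool.Agent.Helper27.MC Pool.Agent.Helper51.MC Pool.Agent.Helper88.MC

variable {V : Type} [Fintype V] [DecidableEq V] {G : SimpleGraph V} [DecidableRel G.Adj]

variable (G) in
/-- change of the number of mono edges when `X` is flipped -/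
def cost (c : V → Bool) (X : Finset V) : ℤ :=
  ∑ x ∈ X, (3 - 2 * (mu G c x : ℤ)) - ∑ x ∈ X, sg G c X x

/-- property (P) -/
theorem Pge (hG : G.IsRegularOfDegree 3) {c : V → Bool} {j : ℕ} (hO : Opt G c j) (X : Finset V) :
    (j : ℤ) - |(j : ℤ) - dd c X| ≤ cost G c X := by
  have h1 := hO.min (flp c X)
  have h2 := flip_ZZ G hG c X
  have h3 := flip_imb c X
  unfold Phi at h1
  rw [h2, h3, hO.imb2] at h1
  have h4 : |2 * (j : ℤ) - 2 * dd c X| = 2 * |(j : ℤ) - dd c X| := by
    rw [← mul_sub, abs_mul]; norm_num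
  have h5 : |2 * (j : ℤ)| = 2 * (j : ℤ) := abs_of_nonneg (by positivity)
  rw [h4, h5] at h1
  have h6 : ∑ x ∈ X, (6 - 4 * (mu G c x : ℤ)) = 2 * ∑ x ∈ X, (3 - 2 * (mu G c x : ℤ)) := by
    rw [Finset.mul_sum]
    exact Finset.sum_congr rfl fun x _ => by ring
  rw [h6] at h1
  unfold cost
  linarith

/-- property (P') -/
theorem Peq (hG : G.IsRegularOfDegree 3) {c : V → Bool} {j : ℕ} (hO : Opt G c j) (X : Finset V)
    (he : cost G c X ≤ (j : ℤ) - |(j : ℤ) - dd c X|) (hmu : ∀ v, mu G (flp c X) v ≤ 1) :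
    2 * (j : ℤ) ≤ |2 * (j : ℤ) - 2 * dd c X| := by
  have h0 := Pge hG hO X
  have h2 := flip_ZZ G hG c X
  have h3 := flip_imb c X
  have h4 : |2 * (j : ℤ) - 2 * dd c X| = 2 * |(j : ℤ) - dd c X| := by
    rw [← mul_sub, abs_mul]; norm_num
  have h5 : |2 * (j : ℤ)| = 2 * (j : ℤ) := abs_of_nonneg (by positivity)
  have h6 : ∑ x ∈ X, (6 - 4 * (mu G c x : ℤ)) = 2 * ∑ x ∈ X, (3 - 2 * (mu G c x : ℤ)) := by
    rw [Finset.mul_sum]
    exact Finset.sum_congr rfl fun x _ => by ring
  have h7 := hO.imin (flp c X) (by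
    unfold Phi
    rw [h2, h3, hO.imb2, h4, h5, h6]
    unfold cost at h0 he
    linarith) hmu
  rw [h3, hO.imb2] at h7
  exact h7

/-! ### explicit sets -/

theorem sf_self (c : V → Bool) (v : V) : sf G c v v = 0 := by
  unfold sf
  simp

theorem sf_adj {c : V → Bool} {v y : V} (h : G.Adj v y) (hc : c v ≠ c y) : sf G c v y = 1 := by
  unfold sf
  rw [if_pos h, if_neg (fun e => hc e.symm)]

theorem sf_ge {c : V → Bool} {v y : V} (hc : c v ≠ c y) : 0 ≤ sf G c v y := by
  unfold sf
  split_ifs with h1 h2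
  · exact absurd h2.symm hc
  · norm_num
  · norm_num

theorem sf_rm {c : V → Bool} {v y : V} (h : Rm G c v y) : sf G c v y = -1 := by
  unfold sf
  rw [if_pos h.1, if_pos h.2]

theorem sf_nrm {c : V → Bool} {v y : V} (h : ¬ Rm G c v y) : 0 ≤ sf G c v y := by
  unfold sf
  split_ifs with h1 h2
  · exact absurd ⟨h1, h2⟩ h
  · norm_num
  · norm_num

theorem sf_nadj {c : V → Bool} {v y : V} (h : ¬ G.Adj v y) : sf G c v y = 0 := by
  unfold sf
  rw [if_neg h]

theorem cost_empty (c : V → Bool) : cost G c ∅ = 0 := by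
  unfold cost
  simp

theorem cost_insert (c : V → Bool) {x : V} {Y : Finset V} (hx : x ∉ Y) :
    cost G c (insert x Y) = cost G c Y + (3 - 2 * (mu G c x : ℤ)) - 2 * ∑ y ∈ Y, sf G c x y := by
  have e : ∀ X : Finset V, ∀ v, sg G c X v = ∑ y ∈ X, sf G c v y := fun X v => rfl
  unfold cost
  simp only [e]
  rw [Finset.sum_insert hx, Finset.sum_insert hx, Finset.sum_insert hx, sf_self]
  have h1 : ∀ z ∈ Y, ∑ y ∈ insert x Y, sf G c z y = sf G c x z + ∑ y ∈ Y, sf G c z y := by
    intro z _
    rw [Finset.sum_insert hx, sf_symm]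
  rw [Finset.sum_congr rfl h1, Finset.sum_add_distrib]
  ring

variable (G) in
/-- cost of a list -/
def cl (c : V → Bool) : List V → ℤ
  | [] => 0
  | x :: l => (3 - 2 * (mu G c x : ℤ)) - 2 * (l.map (fun y => sf G c x y)).sum + cl c l

/-- imbalance of a list -/
def dl (c : V → Bool) : List V → ℤ
  | [] => 0
  | x :: l => (if c x = true then (-1 : ℤ) else 1) + dl c l

theorem cl_nil (c : V → Bool) : cl G c [] = 0 := rfl

theorem cl_cons (c : V → Bool) (x : V) (l : List V) : cl G c (x :: l) =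
    (3 - 2 * (mu G c x : ℤ)) - 2 * (l.map (fun y => sf G c x y)).sum + cl G c l := rfl

theorem dl_nil (c : V → Bool) : dl c [] = 0 := rfl

theorem dl_cons (c : V → Bool) (x : V) (l : List V) : dl c (x :: l) =
    (if c x = true then (-1 : ℤ) else 1) + dl c l := rfl

theorem cost_list (c : V → Bool) : ∀ l : List V, l.Nodup → cost G c l.toFinset = cl G c l := by
  intro l
  induction l with
  | nil => intro _; exact cost_empty c
  | cons x l ih =>
    intro h
    rw [List.nodup_cons] at h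
    rw [List.toFinset_cons, cost_insert c (by simpa using h.1), ih h.2, List.sum_toFinset _ h.2]
    rw [cl_cons]
    ring

theorem dd_list (c : V → Bool) : ∀ l : List V, l.Nodup → dd c l.toFinset = dl c l := by
  intro l
  induction l with
  | nil => intro _; simp [dd, dl]
  | cons x l ih =>
    intro h
    rw [List.nodup_cons] at h
    have h1 := ih h.2
    unfold dd at h1 ⊢
    rw [List.toFinset_cons, Finset.sum_insert (by simpa using h.1), h1]
    rw [dl_cons]

/-- (P) for an explicit list -/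
theorem Plist (hG : G.IsRegularOfDegree 3) {c : V → Bool} {j : ℕ} (hO : Opt G c j) (l : List V)
    (hl : l.Nodup) : (j : ℤ) - |(j : ℤ) - dl c l| ≤ cl G c l := by
  have := Pge hG hO l.toFinset
  rwa [cost_list c l hl, dd_list c l hl] at this

/-- (P') for an explicit list -/
theorem Peqlist (hG : G.IsRegularOfDegree 3) {c : V → Bool} {j : ℕ} (hO : Opt G c j) (l : List V)
    (hl : l.Nodup) (he : cl G c l ≤ (j : ℤ) - |(j : ℤ) - dl c l|)
    (hmu : ∀ v, mu G (flp c l.toFinset) v ≤ 1) : 2 * (j : ℤ) ≤ |2 * (j : ℤ) - 2 * dl c l| := by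
  have := Peq hG hO l.toFinset (by rwa [cost_list c l hl, dd_list c l hl]) hmu
  rwa [dd_list c l hl] at this

end Pool.Agent.Helper64.MC
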