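import Mathlib
import Pool.Agent.Helper64.MC.Cost
import Pool.Agent.Helper51.MC.NB

/-!
MP_4042d8_co: types of vertices, the small instances of (P) and (P'), and the first facts.
-/

set_option autoImplicit false
set_option linter.unusedSectionVars false
set_option linter.unusedSimpArgs false
set_option linter.unusedVariables false

namespace Pool.Agent.Helper64.MC

open Pool.Agent.Helper27.MC Pool.Agent.Helper51.MC Pool.Agent.Helper88.MC

variable {V : Type} [Fintype V] [DecidableEq V] {G : SimpleGraph V} [DecidableRel G.Adj]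

/-! ### (P) and (P') for small imbalance -/

section small

variable {c : V → Bool} {j : ℕ}

/-- `d = 0` -/
theorem P0 (hG : G.IsRegularOfDegree 3) (hO : Opt G c j) (l : List V) (hl : l.Nodup)
    (hd : dl c l = 0) : 0 ≤ cl G c l := by
  have h := Plist hG hO l hl
  rw [hd] at h
  have h1 : |(j : ℤ) - 0| = (j : ℤ) := by rw [sub_zero]; exact abs_of_nonneg (by positivity)
  rw [h1] at h
  linarith

/-- `1 ≤ d ≤ j` -/
theorem Ppos (hG : G.IsRegularOfDegree 3) (hO : Opt G c j) (l : List V) (hl : l.Nodup) (d : ℤ)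
    (hd : dl c l = d) (hdj : d ≤ (j : ℤ)) : d ≤ cl G c l := by
  have h := Plist hG hO l hl
  rw [hd, abs_of_nonneg (by linarith)] at h
  linarith

/-- `d = 2`, `j = 1` -/
theorem P21 (hG : G.IsRegularOfDegree 3) (hO : Opt G c 1) (l : List V) (hl : l.Nodup)
    (hd : dl c l = 2) : 0 ≤ cl G c l := by
  have h := Plist hG hO l hl
  rw [hd] at h
  norm_num at h
  exact h

/-- (P') : cost `≤ d`, `0 < d ≤ j`, and all `mu ≤ 1` after the flip: impossible -/
theorem Pcrit (hG : G.IsRegularOfDegree 3) (hO : Opt G c j) (l : List V) (hl : l.Nodup) (d : ℤ)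
    (hd : dl c l = d) (h0 : 0 < d) (hdj : d ≤ (j : ℤ)) (hc : cl G c l ≤ d)
    (hmu : ∀ v, mu G (flp c l.toFinset) v ≤ 1) : False := by
  have h := Peqlist hG hO l hl (by rw [hd, abs_of_nonneg (by linarith)]; linarith) hmu
  rw [hd, abs_of_nonneg (by linarith)] at h
  linarith

end small

/-! ### numbers of neighbours of a given type -/

variable (G) in
/-- number of neighbours of type `Q` -/
def nQ (c : V → Bool) (v : V) : ℕ := (Finset.univ.filter (fun w => G.Adj v w ∧ tQ G c w)).card

variable (G) in
/-- number of neighbours of type `S` -/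
def nS (c : V → Bool) (v : V) : ℕ := (Finset.univ.filter (fun w => G.Adj v w ∧ tS G c w)).card

variable (G) in
/-- free vertices -/
def Fr (c : V → Bool) : Finset V := Finset.univ.filter (fun v => tS G c v ∧ nQ G c v = 0)

variable (G) in
/-- vertices of type `S` with exactly one neighbour of type `Q` -/
def T1 (c : V → Bool) : Finset V := Finset.univ.filter (fun v => tS G c v ∧ nQ G c v = 1)

variable (G) in
/-- vertices of type `S` with two neighbours of type `Q` -/
def Dd (c : V → Bool) : Finset V := Finset.univ.filter (fun v => tS G c v ∧ nQ G c v = 2)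

variable (G) in
/-- vertices of type `Q` without neighbour of type `S` -/
def Q0 (c : V → Bool) : Finset V := Finset.univ.filter (fun v => tQ G c v ∧ nS G c v = 0)

variable (G) in
/-- vertices of type `Q` with two neighbours of type `S` -/
def Th (c : V → Bool) : Finset V := Finset.univ.filter (fun v => tQ G c v ∧ nS G c v = 2)

/-- `mu = 1` means: there is a mate -/
theorem exists_mate {c : V → Bool} {v : V} (h : mu G c v = 1) : ∃ w, Rm G c v w := by
  obtain ⟨a, ha⟩ := mu_one h
  exact ⟨a, (ha a).2 rfl⟩

theorem mu_of_rm {c : V → Bool} (hm : ∀ v, mu G c v ≤ 1) {v w : V} (h : Rm G c v w) :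
    mu G c v = 1 := by
  have h1 := hm v
  have h2 : mu G c v ≠ 0 := fun e => mu_zero e w h
  omega

/-- `F1`: two neighbours of type `S` of a vertex of type `Q` are mates -/
theorem F1 (hG : G.IsRegularOfDegree 3) {c : V → Bool} {j : ℕ} (hj : 1 ≤ j) (hO : Opt G c j)
    {q s s' : V} (hq : tQ G c q) (hs : tS G c s) (hs' : tS G c s') (h : G.Adj q s)
    (h' : G.Adj q s') (hne : s ≠ s') : Rm G c s s' := by
  by_contra hn
  have n1 : s ≠ q := h.ne.symm
  have n2 : q ≠ s' := h'.ne
  have h1 := Ppos hG hO [s, q, s'] (by simp [n1, n2, hne]) 1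
    (by simp [dl_cons, dl_nil, hq.1, hs.1, hs'.1]) (by exact_mod_cast hj)
  simp only [cl_cons, cl_nil, List.map_cons, List.map_nil, List.sum_cons, List.sum_nil, hq.2, hs.2, hs'.2] at h1
  have e1 : sf G c s q = 1 := sf_adj h.symm (by rw [hs.1, hq.1]; decide)
  have e2 : sf G c q s' = 1 := sf_adj h' (by rw [hs'.1, hq.1]; decide)
  have e3 : 0 ≤ sf G c s s' := sf_nrm hn
  push_cast at h1
  linarith

end Pool.Agent.Helper64.MC
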