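import Mathlib
import Pool.Agent.Helper64.MC.Types

/-!
MP_4042d8_co: statements of the rows (facts and units), all for an arbitrary finite simple cubic graph.
-/

set_option autoImplicit false
set_option linter.unusedSectionVars false
set_option linter.unusedSimpArgs false
set_option linter.unusedVariables false

namespace Pool.Agent.Helper64.MC

open Pool.Agent.Helper27.MC Pool.Agent.Helper51.MC Pool.Agent.Helper88.MC

section defs

variable {V : Type} [Fintype V] [DecidableEq V] (G : SimpleGraph V) [DecidableRel G.Adj]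

/-- the three neighbours of `v` -/
structure N3 (v x y z : V) : Prop where
  nb : ∀ w, G.Adj v w ↔ w = x ∨ w = y ∨ w = z
  xy : x ≠ y
  xz : x ≠ z
  yz : y ≠ z

/-- a vertex `s` of type `S` with mate `m` and its two true neighbours `a`, `b` -/
structure Sv (c : V → Bool) (s m a b : V) : Prop where
  cs : c s = false
  cm : c m = false
  ca : c a = true
  cb : c b = true
  n3 : N3 G s m a b

/-- a vertex `a` of type `A` with its three (false) neighbours -/
structure Av (c : V → Bool) (a x y z : V) : Prop where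
  ca : c a = true
  cx : c x = false
  cy : c y = false
  cz : c z = false
  n3 : N3 G a x y z

/-- a 3-hub: `a` of type `A`, its neighbours `s1 s2 s3` of type `S`, pairwise not mates,
mates `v1 v2 v3`, other true neighbours `p1 p2 p3` -/
structure Hub3 (c : V → Bool) (a s1 s2 s3 v1 v2 v3 p1 p2 p3 : V) : Prop where
  av : Av G c a s1 s2 s3
  h1 : Sv G c s1 v1 a p1
  h2 : Sv G c s2 v2 a p2
  h3 : Sv G c s3 v3 a p3
  n12 : ¬ Rm G c s1 s2
  n13 : ¬ Rm G c s1 s3
  n23 : ¬ Rm G c s2 s3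

/-- there is a final colouring -/
def Good : Prop := ∃ c' : V → Bool, FinH G c'

/-- `G` has no triangle -/
def TF : Prop := ∀ x y z : V, G.Adj x y → G.Adj y z → ¬ G.Adj x z

end defs

/-- FCNT: pure counting. `|F| + |Θ| = 6 j + |D| + |Q0|`. -/
def ST_FCNT : Prop :=
  ∀ (V : Type) [Fintype V] [DecidableEq V] (G : SimpleGraph V) [DecidableRel G.Adj],
    G.IsRegularOfDegree 3 → ∀ (c : V → Bool) (j : ℕ), (∀ v, mu G c v ≤ 1) → imb c = 2 * (j : ℤ) →
      (Fr G c).card + (Th G c).card = 6 * j + (Dd G c).card + (Q0 G c).card ∧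
      ∀ s, tS G c s → s ∈ Fr G c ∨ s ∈ T1 G c ∨ s ∈ Dd G c

/-- SVX: data of vertices. -/
def ST_SVX : Prop :=
  ∀ (V : Type) [Fintype V] [DecidableEq V] (G : SimpleGraph V) [DecidableRel G.Adj],
    G.IsRegularOfDegree 3 → ∀ (c : V → Bool), (∀ v, mu G c v ≤ 1) →
      (∀ s a, tS G c s → G.Adj s a → c a = true → ∃ m b, Sv G c s m a b) ∧
      (∀ a x, tA G c a → G.Adj a x → ∃ y z, Av G c a x y z) ∧
      (∀ s m a b, Sv G c s m a b → Sv G c s m b a ∧ tS G c s ∧ tS G c m ∧ Rm G c s m) ∧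
      (∀ s m a b, Sv G c s m a b → (s ∈ Fr G c ↔ tA G c a ∧ tA G c b)) ∧
      (∀ s m a b, Sv G c s m a b →
        (s ∈ T1 G c ↔ (tA G c a ∧ tQ G c b) ∨ (tQ G c a ∧ tA G c b))) ∧
      (∀ s m a b, Sv G c s m a b → (s ∈ Dd G c ↔ tQ G c a ∧ tQ G c b)) ∧
      (∀ u m a b x y, Sv G c u m a b → tA G c b → Av G c a u x y → Slot G c u m a b x y)

/-- F2: `j ≥ 2`: three neighbours of type `S` of `a`: two of them are mates. -/
def ST_F2 : Prop :=
  ∀ (V : Type) [Fintype V] [DecidableEq V] (G : SimpleGraph V) [DecidableRel G.Adj],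
    G.IsRegularOfDegree 3 → ∀ (c : V → Bool) (j : ℕ), 2 ≤ j → Opt G c j →
      ∀ a s1 s2 s3 v1 v2 v3 p1 p2 p3, ¬ Hub3 G c a s1 s2 s3 v1 v2 v3 p1 p2 p3

/-- H3: facts on 3-hubs: the `s_i` are free, the `p_i` are distinct. -/
def ST_H3 : Prop :=
  ∀ (V : Type) [Fintype V] [DecidableEq V] (G : SimpleGraph V) [DecidableRel G.Adj],
    G.IsRegularOfDegree 3 → ∀ (c : V → Bool) (j : ℕ), 1 ≤ j → Opt G c j →
      ∀ a s1 s2 s3 v1 v2 v3 p1 p2 p3, Hub3 G c a s1 s2 s3 v1 v2 v3 p1 p2 p3 →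
        (tA G c p1 ∧ tA G c p2 ∧ tA G c p3) ∧ p1 ≠ p2 ∧ p1 ≠ p3 ∧ p2 ≠ p3

/-- H2: a slot with exactly one further neighbour `t` of type `S`, not the mate of `u`
(`x` has no mate except possibly `u`): `t` is in `T1`, or `t` is free and adjacent to `b`. -/
def ST_H2 : Prop :=
  ∀ (V : Type) [Fintype V] [DecidableEq V] (G : SimpleGraph V) [DecidableRel G.Adj],
    G.IsRegularOfDegree 3 → ∀ (c : V → Bool) (j : ℕ), 1 ≤ j → Opt G c j →
      ∀ u m a b x t r, Slot G c u m a b x t → (∀ w, Rm G c x w → w = u) → Rm G c t r → r ≠ u →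
        t ∈ T1 G c ∨ (t ∈ Fr G c ∧ G.Adj t b)

/-- AP: apex: a slot whose two other neighbours `t`, `t'` are mates: for each of them the other true
neighbour is of type `Q` or equal to `b`. -/
def ST_AP : Prop :=
  ∀ (V : Type) [Fintype V] [DecidableEq V] (G : SimpleGraph V) [DecidableRel G.Adj],
    G.IsRegularOfDegree 3 → ∀ (c : V → Bool) (j : ℕ), 1 ≤ j → Opt G c j →
      ∀ u m a b t t' e, Slot G c u m a b t t' → Rm G c t t' → Sv G c t t' a e →
        tQ G c e ∨ e = b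

/-- PA: `L3` with `U3`. -/
def ST_PA : Prop :=
  ∀ (V : Type) [Fintype V] [DecidableEq V] (G : SimpleGraph V) [DecidableRel G.Adj],
    G.IsRegularOfDegree 3 → ∀ (c : V → Bool), (∀ v, mu G c v ≤ 1) →
      ∀ u m a b x y s, Slot G c u m a b x y → (∀ w, Rm G c x w → w = u) →
        (∀ w, Rm G c y w → w = u) → s ∈ Fr G c → s ≠ u → s ≠ m → ¬ G.Adj s b →
        Blk G c ({u, a} ∪ {s}) (ter G c {u, a} ∪ ter G c {s})

/-- PB: `L4` with `U4`. -/
def ST_PB : Prop :=
  ∀ (V : Type) [Fintype V] [DecidableEq V] (G : SimpleGraph V) [DecidableRel G.Adj],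
    G.IsRegularOfDegree 3 → ∀ (c : V → Bool), (∀ v, mu G c v ≤ 1) →
      ∀ u m a b x y r s, Slot G c u m a b x y → (∀ w, Rm G c x w → w = u) →
        Rm G c y r → r ≠ u → s ∈ T1 G c → s ≠ y → s ≠ r → s ≠ m → ¬ G.Adj s b →
        Blk G c ({u, a} ∪ {s}) (ter G c {u, a} ∪ ter G c {s})

/-- PD: `L5` with `U5`. -/
def ST_PD : Prop :=
  ∀ (V : Type) [Fintype V] [DecidableEq V] (G : SimpleGraph V) [DecidableRel G.Adj],
    G.IsRegularOfDegree 3 → ∀ (c : V → Bool), (∀ v, mu G c v ≤ 1) →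
      ∀ a s1 s2 s3 v1 v2 v3 p1 p2 p3 s m q q', Hub3 G c a s1 s2 s3 v1 v2 v3 p1 p2 p3 →
        tA G c p1 → Sv G c s m q q' → tQ G c q → tQ G c q' → ¬ G.Adj q q' →
        s ≠ v1 → s ≠ v2 → s ≠ v3 →
        Blk G c ({s1, a} ∪ {s}) (ter G c {s1, a} ∪ ter G c {s})

/-- ONE: one unit suffices for `j = 1`. -/
def ST_ONE : Prop :=
  ∀ (V : Type) [Fintype V] [DecidableEq V] (G : SimpleGraph V) [DecidableRel G.Adj],
    G.IsRegularOfDegree 3 → ∀ (c : V → Bool), Opt G c 1 →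
      (∀ X T, Blk G c X T → Good G) ∧
      -- N slots
      (∀ u m a b x y, Slot G c u m a b x y → (∀ w, Rm G c x w → w = u) →
        (∀ w, Rm G c y w → w = u) → 5 ≤ (Fr G c).card → Good G) ∧
      -- slots of type 4
      (∀ u m a b x y r, Slot G c u m a b x y → (∀ w, Rm G c x w → w = u) → Rm G c y r → r ≠ u →
        6 ≤ (T1 G c).card → Good G)

/-- ZERO: flips of cost zero. -/
def ST_ZERO : Prop :=
  ∀ (V : Type) [Fintype V] [DecidableEq V] (G : SimpleGraph V) [DecidableRel G.Adj],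
    G.IsRegularOfDegree 3 → ∀ (c : V → Bool) (j : ℕ), Opt G c j →
      (∀ X, cost G c X ≤ 0 → dd c X = 0 → (∀ v, mu G (flp c X) v ≤ 1) → Opt G (flp c X) j) ∧
      (∀ X, cost G c X ≤ 0 → dd c X = 2 * (j : ℤ) → (∀ v, mu G (flp c X) v ≤ 1) →
        Opt G (fun v => !(flp c X v)) j) ∧
      (∀ X, FinH G (fun v => !(flp c X v)) → Good G)

/-- C1: 3-hub with `v1` in `T1` (`y` in `A`, `q` in `Q` its true neighbours, `q'` the mate of `q`),
`p2 ≠ y`. -/
def ST_C1 : Prop :=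
  ∀ (V : Type) [Fintype V] [DecidableEq V] (G : SimpleGraph V) [DecidableRel G.Adj],
    G.IsRegularOfDegree 3 → ∀ (c : V → Bool), (∀ v, mu G c v ≤ 1) →
      ∀ a s1 s2 s3 v1 v2 v3 p1 p2 p3 y q, Hub3 G c a s1 s2 s3 v1 v2 v3 p1 p2 p3 →
        tA G c p2 → Sv G c v1 s1 y q → tA G c y → tQ G c q → p2 ≠ y →
        ∃ T, Blk G c {s2, a, v1} T

/-- C2: 3-hub with `v1` free and adjacent to `p2`. -/
def ST_C2 : Prop :=
  ∀ (V : Type) [Fintype V] [DecidableEq V] (G : SimpleGraph V) [DecidableRel G.Adj],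
    G.IsRegularOfDegree 3 → ∀ (c : V → Bool), (∀ v, mu G c v ≤ 1) →
      ∀ a s1 s2 s3 v1 v2 v3 p1 p2 p3 z, Hub3 G c a s1 s2 s3 v1 v2 v3 p1 p2 p3 →
        Sv G c v1 s1 p2 z → tA G c p2 → tA G c z →
        ∃ T, Blk G c {s2, a, v1} T

/-- SW: the swap of a 3-hub (`j = 1`): exchange of colours after the flip of `{a, s1, s2, s3}`. -/
def ST_SW : Prop :=
  ∀ (V : Type) [Fintype V] [DecidableEq V] (G : SimpleGraph V) [DecidableRel G.Adj],
    G.IsRegularOfDegree 3 → ∀ (c : V → Bool), Opt G c 1 →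
      ∀ a s1 s2 s3 v1 v2 v3 p1 p2 p3, Hub3 G c a s1 s2 s3 v1 v2 v3 p1 p2 p3 →
        Opt G (fun v => !(flp c {a, s1, s2, s3} v)) 1

/-- C3: 3-hub with `v1` free and adjacent to neither `p2` nor `p3`: after the swap `(s1, v1)` is an
`N` slot; the number of free vertices of the swapped colouring is a hypothesis. -/
def ST_C3 : Prop :=
  ∀ (V : Type) [Fintype V] [DecidableEq V] (G : SimpleGraph V) [DecidableRel G.Adj],
    G.IsRegularOfDegree 3 → ∀ (c : V → Bool), Opt G c 1 →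
      ∀ a s1 s2 s3 v1 v2 v3 p1 p2 p3, Hub3 G c a s1 s2 s3 v1 v2 v3 p1 p2 p3 →
        v1 ∈ Fr G c → ¬ G.Adj v1 p2 → ¬ G.Adj v1 p3 →
        5 ≤ (Fr G (fun v => !(flp c {a, s1, s2, s3} v))).card → Good G

/-- SQ1: square (`u`, `t` free, not mates, both adjacent to `a` and `b`) with the same third neighbour
`w` of type `B`, and another free vertex `s`. -/
def ST_SQ1 : Prop :=
  ∀ (V : Type) [Fintype V] [DecidableEq V] (G : SimpleGraph V) [DecidableRel G.Adj],
    G.IsRegularOfDegree 3 → ∀ (c : V → Bool), (∀ v, mu G c v ≤ 1) →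
      ∀ u t a b w v r s, Sv G c u v a b → Sv G c t r a b → ¬ Rm G c u t → Av G c a u t w →
        Av G c b u t w → tB G c w → s ∈ Fr G c → s ≠ u → s ≠ t → s ≠ v → s ≠ r →
        ∃ T, Blk G c {u, t, a, b, s} T

/-- SQ2: square with third neighbours `w ≠ w'` of type `B` (`w` at `a`), `r` (mate of `t`) free. -/
def ST_SQ2 : Prop :=
  ∀ (V : Type) [Fintype V] [DecidableEq V] (G : SimpleGraph V) [DecidableRel G.Adj],
    G.IsRegularOfDegree 3 → ∀ (c : V → Bool), (∀ v, mu G c v ≤ 1) →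
      ∀ u t a b w w' v r x y, Sv G c u v a b → Sv G c t r a b → ¬ Rm G c u t →
        Av G c a u t w → Av G c b u t w' → tB G c w → w' ≠ r → Sv G c r t x y →
        tA G c x → tA G c y → ∃ T, Blk G c {u, a, r} T

end Pool.Agent.Helper64.MC
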